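import Pool.Agent.Helper922.Big

set_option autoImplicit false

open AlgebraicGeometry CategoryTheory Limits TopologicalSpace

namespace Pool.Agent.Helper922.Base

open Bundles P1 PP Glue Secs Semi

noncomputable section

theorem mem_nonvanishing {X : Scheme.{0}} {L : LineSheaf X} (s : L.Section) (x : X) (i : L.ι)
    (hi : x ∈ L.U i) (hx : x ∈ s.nonvanishing) : x ∈ X.basicOpen (s.s i) := by
  obtain ⟨j, hj⟩ := Opens.mem_iSup.1 hx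
  have hj' : x ∈ L.U j := X.basicOpen_le _ hj
  have h := s.compat i j (L.U i ⊓ L.U j) inf_le_left inf_le_right
  have h1 : x ∈ X.basicOpen (res (inf_le_right : L.U i ⊓ L.U j ≤ L.U j) (s.s j)) := by
    unfold res
    rw [Scheme.basicOpen_res]
    exact ⟨⟨hi, hj'⟩, hj⟩
  have h2 : x ∈ X.basicOpen (res (inf_le_left : L.U i ⊓ L.U j ≤ L.U i) (s.s i)) := by
    rw [h, Scheme.basicOpen_mul, Scheme.basicOpen_of_isUnit _ (Units.isUnit _)]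
    exact ⟨⟨hi, hj'⟩, h1⟩
  unfold res at h2
  rw [Scheme.basicOpen_res] at h2
  exact h2.2

theorem iso_of_cast {X T : Scheme.{0}} {r : ℕ} {E : VectorSheaf X r} {f g : T ⟶ X} (h : g = f)
    (Q : InvQuot E g) (Q' : InvQuot E f) (hi : InvQuot.IsIso (h ▸ Q) Q') :
    Nonempty (LineSheaf.Iso Q.L Q'.L) := by
  subst h
  obtain ⟨φ, -⟩ := hi
  exact ⟨φ⟩

variable (k : Type) [Field k]

def qv (i c : Fin 2 × Fin 2) (a : Fin 2) : Γ(XX k, (𝟙 (XX k)) ⁻¹ᵁ UU k i ⊓ UU k c) :=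
  if a = 0 then res (inf_le_right : (𝟙 (XX k)) ⁻¹ᵁ UU k i ⊓ UU k c ≤ UU k c) (f1 k c i.1) else 0

theorem qv_zero (i c : Fin 2 × Fin 2) : qv k i c 0 = res (inf_le_right : (𝟙 (XX k)) ⁻¹ᵁ UU k i ⊓ UU k c ≤ UU k c) (f1 k c i.1) := if_pos rfl
theorem qv_one (i c : Fin 2 × Fin 2) : qv k i c 1 = 0 := if_neg (by decide)

theorem qv_compat (i j c d : Fin 2 × Fin 2) (W : (XX k).Opens) (hi : W ≤ (𝟙 (XX k)) ⁻¹ᵁ UU k i)
    (hj : W ≤ (𝟙 (XX k)) ⁻¹ᵁ UU k j) (hc : W ≤ UU k c) (hd : W ≤ UU k d) (b : Fin 2) :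
    ∑ a, res (le_inf hi hc) (qv k i c a) *
      pull (𝟙 (XX k)) (le_pre_inf (𝟙 (XX k)) hi hj) ((dg (u1 k i j) (u2 k i j)) a b) =
      resU (le_inf hc hd) (u1 k c d) * res (le_inf hj hd) (qv k j d b) := by
  have hi' : W ≤ UU k i := hi
  have hj' : W ≤ UU k j := hj
  rw [Fin.sum_univ_two, qv_one, map_zero, zero_mul, add_zero, qv_zero, u1_coe k c d W hc hd, res_res]
  by_cases hb : b = 0
  · subst hb
    have h2 : (dg (u1 k i j) (u2 k i j)) 0 0 = res inf_le_left (f1 k i j.1) := rfl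
    rw [qv_zero, h2, pull_of_eq_id rfl _ (le_inf hi' hj'), res_res, res_res, f1_rel, f1_rel]
  · have hb : b = 1 := by omega
    subst hb
    have h2 : (dg (u1 k i j) (u2 k i j)) 0 1 = (0 : Γ(XX k, UU k i ⊓ UU k j)) := rfl
    rw [qv_one, h2, map_zero, map_zero, mul_zero, mul_zero]

theorem qv_surj (i c : Fin 2 × Fin 2) (t : XX k) (hi : t ∈ (𝟙 (XX k)) ⁻¹ᵁ UU k i) (hc : t ∈ UU k c) :
    ∃ a, t ∈ (XX k).basicOpen (qv k i c a) := by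
  refine ⟨0, ?_⟩
  have hu : IsUnit (res (inf_le_right : (𝟙 (XX k)) ⁻¹ᵁ UU k i ⊓ UU k c ≤ UU k c) (f1 k c i.1)) := by
    have hle : (𝟙 (XX k)) ⁻¹ᵁ UU k i ⊓ UU k c ≤ UU k i := fun x hx => hx.1
    refine IsUnit.of_mul_eq_one (res hle (f1 k i c.1)) ?_
    rw [f1_rel, f1_self, map_one]
  rw [qv_zero, Scheme.basicOpen_of_isUnit _ hu]
  exact ⟨hi, hc⟩

/-- the quotient `E → O(1,0)` -/
def QL : InvQuot (EE k) (𝟙 (XX k)) where
  L := L10 k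
  q i c := qv k i c
  compat i j c d W hi hj hc hd b := qv_compat k i j c d W hi hj hc hd b
  surjective i c t hi hc := qv_surj k i c t hi hc

theorem two_points : ∃ t t' : PL k, t ≠ t' := by
  refine ⟨kap k 0 ⟨⊥, Ideal.isPrime_bot⟩, kap k 0 ⟨Ideal.span {Polynomial.X}, ?_⟩, ?_⟩
  · rw [Ideal.span_singleton_prime Polynomial.X_ne_zero]
    exact Polynomial.prime_X
  · intro h
    have h1 := (kap k 0).isOpenEmbedding.injective h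
    have h2 : (⊥ : Ideal (Polynomial k)) = Ideal.span {Polynomial.X} := congrArg PrimeSpectrum.asIdeal h1
    have h3 : (Polynomial.X : Polynomial k) ∈ (⊥ : Ideal (Polynomial k)) := by
      rw [h2]; exact Ideal.mem_span_singleton_self _
    exact Polynomial.X_ne_zero (R := k) (Ideal.mem_bot.1 h3)

theorem const_of_affine {P : Scheme.{0}} (D : P.Opens) (hD : IsAffineOpen D) (c : PL k ⟶ P)
    (hc : ∀ t, c t ∈ D) (t t' : PL k) : c t = c t' := by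
  have hr : Set.range c ⊆ Set.range D.ι := by
    rintro _ ⟨s, rfl⟩
    rw [Scheme.Opens.range_ι]
    exact hc s
  let c' : PL k ⟶ D.toScheme := IsOpenImmersion.lift D.ι c hr
  have hc' : c' ≫ D.ι = c := IsOpenImmersion.lift_fac D.ι c hr
  have : IsAffine D.toScheme := hD
  have h1 := Scheme.toSpecΓ_naturality c'
  have hs : (PL k).toSpecΓ t = (PL k).toSpecΓ t' := by
    let _ := (isField_PL k).toField
    exact Subsingleton.elim (α := PrimeSpectrum Γ(PL k, ⊤)) _ _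
  have h2 : D.toScheme.toSpecΓ (c' t) = D.toScheme.toSpecΓ (c' t') := by
    rw [← Scheme.Hom.comp_apply, ← Scheme.Hom.comp_apply, h1, Scheme.Hom.comp_apply,
      Scheme.Hom.comp_apply, hs]
  have h3 : c' t = c' t' := D.toScheme.toSpecΓ.homeomorph.injective h2
  rw [← hc', Scheme.Hom.comp_apply, Scheme.Hom.comp_apply, h3]

theorem unit_alg {R : Type} [CommRing R] (gl ga th th' : Rˣ) (n m : ℕ) (s s' u u' : R)
    (h1 : s = ((gl ^ (n : ℤ) * ga ^ (-1 : ℤ) : Rˣ) : R) * s')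
    (h2 : u = ((ga ^ (m : ℤ) : Rˣ) : R) * u') (h3 : th = gl * th') :
    s ^ m * u * (((th ^ (n * m))⁻¹ : Rˣ) : R) = s' ^ m * u' * (((th' ^ (n * m))⁻¹ : Rˣ) : R) := by
  have h4 : (gl ^ (n : ℤ) * ga ^ (-1 : ℤ)) ^ m * ga ^ (m : ℤ) * ((gl * th') ^ (n * m))⁻¹ =
      (th' ^ (n * m))⁻¹ := by
    rw [zpow_natCast, zpow_natCast, zpow_neg_one, mul_pow, mul_pow, ← pow_mul, mul_inv, inv_pow,
      inv_mul_cancel_right, mul_inv_cancel_left]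
  rw [h1, h2, h3, mul_pow, ← h4]
  push_cast
  ring

theorem mem_pow {X : Scheme.{0}} {U : X.Opens} (f : Γ(X, U)) (n : ℕ) (x : X)
    (h : x ∈ X.basicOpen f) : x ∈ X.basicOpen (f ^ n) := by
  induction n with
  | zero =>
    rw [pow_zero, Scheme.basicOpen_of_isUnit _ isUnit_one]
    exact X.basicOpen_le _ h
  | succ n ih =>
    rw [pow_succ, Scheme.basicOpen_mul]
    exact ⟨ih, h⟩

theorem pullU_pullU {X Y Z : Scheme.{0}} (f : Y ⟶ X) (g : Z ⟶ Y) {U : X.Opens} {V : Y.Opens}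
    {W : Z.Opens} (h : V ≤ f ⁻¹ᵁ U) (h' : W ≤ g ⁻¹ᵁ V) (s : Γ(X, U)ˣ) :
    pullU g h' (pullU f h s) = pullU (g ≫ f) (h'.trans (g.preimage_mono h)) s :=
  Units.ext (pull_pull f g h h' s.1)

theorem pull_section {X Y : Scheme.{0}} (c : Y ⟶ X) (L : LineSheaf X) (s : L.Section) (i j : L.ι)
    (W : Y.Opens) (hi : W ≤ c ⁻¹ᵁ L.U i) (hj : W ≤ c ⁻¹ᵁ L.U j) :
    pull c hi (s.s i) = (pullU c (le_pre_inf c hi hj) (L.g i j) : Γ(Y, W)ˣ) * pull c hj (s.s j) := by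
  have h := congrArg (pull c (le_pre_inf c hi hj)) (s.compat i j (L.U i ⊓ L.U j) inf_le_left inf_le_right)
  rw [map_mul, pull_res, pull_res, ← coe_pullU, pullU_resU] at h
  exact h

theorem tensor_g {P : Scheme.{0}} (L A : LineSheaf P) (n : ℕ) {Y : Scheme.{0}} (c : Y ⟶ P)
    (e e' : L.ι × A.ι) (W : Y.Opens) (h1 : W ≤ c ⁻¹ᵁ (L.U e.1 ⊓ A.U e.2))
    (h2 : W ≤ c ⁻¹ᵁ (L.U e'.1 ⊓ A.U e'.2)) (h3 : W ≤ c ⁻¹ᵁ (L.U e.1 ⊓ L.U e'.1))
    (h4 : W ≤ c ⁻¹ᵁ (A.U e.2 ⊓ A.U e'.2))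
    (h5 : (L.U e.1 ⊓ A.U e.2) ⊓ (L.U e'.1 ⊓ A.U e'.2) ≤ L.U e.1 ⊓ L.U e'.1)
    (h6 : (L.U e.1 ⊓ A.U e.2) ⊓ (L.U e'.1 ⊓ A.U e'.2) ≤ A.U e.2 ⊓ A.U e'.2) :
    pullU c (le_pre_inf c h1 h2) (resU h5 (L.g e.1 e'.1 ^ (n : ℤ)) * resU h6 (A.g e.2 e'.2 ^ (-1 : ℤ))) =
      (pullU c h3 (L.g e.1 e'.1)) ^ (n : ℤ) * (pullU c h4 (A.g e.2 e'.2)) ^ (-1 : ℤ) := by
  rw [map_mul, pullU_resU, pullU_resU, map_zpow, map_zpow]

theorem tensor_pull {P : Scheme.{0}} (L A : LineSheaf P) (n : ℕ)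
    (s : ((L.zpow n).tensor (A.zpow (-1))).Section) :
    ∃ sv : ∀ e : L.ι × A.ι, Γ(P, L.U e.1 ⊓ A.U e.2),
      (∀ (x : P) (e : L.ι × A.ι), x ∈ L.U e.1 → x ∈ A.U e.2 → x ∈ s.nonvanishing →
        x ∈ P.basicOpen (sv e)) ∧
      ∀ {Y : Scheme.{0}} (c : Y ⟶ P) (e e' : L.ι × A.ι) (W : Y.Opens)
        (h1 : W ≤ c ⁻¹ᵁ (L.U e.1 ⊓ A.U e.2)) (h2 : W ≤ c ⁻¹ᵁ (L.U e'.1 ⊓ A.U e'.2))
        (h3 : W ≤ c ⁻¹ᵁ (L.U e.1 ⊓ L.U e'.1)) (h4 : W ≤ c ⁻¹ᵁ (A.U e.2 ⊓ A.U e'.2)),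
        pull c h1 (sv e) =
          (((pullU c h3 (L.g e.1 e'.1)) ^ (n : ℤ) * (pullU c h4 (A.g e.2 e'.2)) ^ (-1 : ℤ) :
            Γ(Y, W)ˣ) : Γ(Y, W)) * pull c h2 (sv e') := by
  refine ⟨s.s, ?_, ?_⟩
  · intro x e h1 h2 hx
    exact mem_nonvanishing s x e ⟨h1, h2⟩ hx
  · intro Y c e e' W h1 h2 h3 h4
    refine (pull_section c _ s e e' W h1 h2).trans ?_
    rw [← tensor_g L A n c e e' W h1 h2 h3 h4 (inf_le_inf inf_le_left inf_le_left)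
      (inf_le_inf inf_le_right inf_le_right)]
    rfl

theorem zpow_pull {P : Scheme.{0}} (A : LineSheaf P) (m : ℕ) (u : (A.zpow m).Section) :
    ∃ uv : ∀ j : A.ι, Γ(P, A.U j),
      (∀ (x : P) (j : A.ι), x ∈ A.U j → x ∈ u.nonvanishing → x ∈ P.basicOpen (uv j)) ∧
      (∀ (x : P) (j : A.ι), x ∈ P.basicOpen (uv j) → x ∈ u.nonvanishing) ∧
      ∀ {Y : Scheme.{0}} (c : Y ⟶ P) (j j' : A.ι) (W : Y.Opens) (h1 : W ≤ c ⁻¹ᵁ (A.U j))
        (h2 : W ≤ c ⁻¹ᵁ (A.U j')) (h4 : W ≤ c ⁻¹ᵁ (A.U j ⊓ A.U j')),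
        pull c h1 (uv j) = (((pullU c h4 (A.g j j')) ^ (m : ℤ) : Γ(Y, W)ˣ) : Γ(Y, W)) *
          pull c h2 (uv j') := by
  refine ⟨u.s, ?_, ?_, ?_⟩
  · intro x e h1 hx
    exact mem_nonvanishing u x e h1 hx
  · intro x j hx
    exact Opens.mem_iSup.2 ⟨j, hx⟩
  · intro Y c e e' W h1 h2 h4
    refine (pull_section c _ u e e' W h1 h2).trans ?_
    rw [← map_zpow]
    rfl

theorem u1_trivial (i0 l l' : Fin 2) : u1 k (i0, l) (i0, l') = 1 := by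
  apply Units.ext
  have h : f1 k (i0, l) ((i0, l') : Fin 2 × Fin 2).1 = 1 := f1_self k (i0, l)
  change res inf_le_left (f1 k (i0, l) ((i0, l') : Fin 2 × Fin 2).1) = 1
  rw [h, map_one]

theorem no_section [IsAlgClosed k] {P : Scheme.{0}} (σ : XX k ⟶ P) (π : P ⟶ XX k)
    (hσ : σ ≫ π = 𝟙 _) (L A : LineSheaf P) (φ : LineSheaf.Iso (L.pullback σ) (L10 k))
    (hA : A.IsAmple) (x : XX k) (n : ℕ) (s : ((L.zpow n).tensor (A.zpow (-1))).Section) :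
    σ x ∉ s.nonvanishing := by
  intro hxs
  obtain ⟨m, hm, u, hu, haff⟩ := hA.2 (σ x)
  obtain ⟨q1, q2, h1, h2, z, hz, -⟩ := exists_kpt k (σ ⁻¹ᵁ (s.nonvanishing ⊓ u.nonvanishing)) x
    ⟨hxs, hu⟩
  let F : PL k ⟶ XX k := F1 k q1 h1
  let c : PL k ⟶ P := F ≫ σ
  let y : PL k := q2 z
  have hcy1 : c y ∈ s.nonvanishing := hz.1
  have hcy2 : c y ∈ u.nonvanishing := hz.2
  obtain ⟨i0, hi0⟩ := cover k (q1 (strP k y))
  have hle : ∀ l, VV k l ≤ F ⁻¹ᵁ UU k (i0, l) := by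
    intro l
    refine le_pre_inf _ ?_ ?_
    · change VV k l ≤ (F1 k q1 h1 ≫ p1 k) ⁻¹ᵁ VV k i0
      rw [F1_p1]
      exact str_q k q1 i0 _ hi0 _
    · change VV k l ≤ (F1 k q1 h1 ≫ p2 k) ⁻¹ᵁ VV k l
      rw [F1_p2]
      exact le_refl _
  let O : (L.ι × A.ι) × Fin 2 → (PL k).Opens := fun e => c ⁻¹ᵁ (L.U e.1.1 ⊓ A.U e.1.2) ⊓ VV k e.2
  have hO1 : ∀ e, O e ≤ c ⁻¹ᵁ (L.U e.1.1 ⊓ A.U e.1.2) := fun e => inf_le_left
  have hOL : ∀ e, O e ≤ c ⁻¹ᵁ (L.U e.1.1) := fun e => inf_le_left.trans (c.preimage_mono inf_le_left)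
  have hOA : ∀ e, O e ≤ c ⁻¹ᵁ (A.U e.1.2) := fun e => inf_le_left.trans (c.preimage_mono inf_le_right)
  have hOV : ∀ e, O e ≤ VV k e.2 := fun e => inf_le_right
  have hth : ∀ (i : L.ι) (l : Fin 2) (W : (PL k).Opens), W ≤ c ⁻¹ᵁ (L.U i) → W ≤ VV k l →
      W ≤ F ⁻¹ᵁ ((σ ⁻¹ᵁ L.U i) ⊓ UU k (i0, l)) := fun i l W h h' =>
    le_pre_inf F h (h'.trans (hle l))
  obtain ⟨sv, hsv1, hsv2⟩ := tensor_pull L A n s
  obtain ⟨uv, huv1, huv3, huv2⟩ := zpow_pull A m u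
  let w : ∀ e, Γ(PL k, O e) := fun e =>
    pull c (hO1 e) (sv e.1) ^ m * pull c (hOA e) (uv e.1.2) *
      ((((pullU F (hth e.1.1 e.2 (O e) (hOL e) (hOV e)) (φ.θ e.1.1 (i0, e.2))) ^ (n * m))⁻¹ :
        Γ(PL k, O e)ˣ) : Γ(PL k, O e))
  obtain ⟨t, ht⟩ := glue O (by
    intro p
    obtain ⟨i, hi⟩ := L.covers (c p)
    obtain ⟨j, hj⟩ := A.covers (c p)
    obtain ⟨l, hl⟩ := cover k p
    exact ⟨((i, j), l), ⟨hi, hj⟩, hl⟩) w (by
    intro e e' W he he'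
    have hW1 : W ≤ c ⁻¹ᵁ (L.U e.1.1 ⊓ L.U e'.1.1) :=
      le_pre_inf c (he.trans (hOL e)) (he'.trans (hOL e'))
    have hW2 : W ≤ c ⁻¹ᵁ (A.U e.1.2 ⊓ A.U e'.1.2) :=
      le_pre_inf c (he.trans (hOA e)) (he'.trans (hOA e'))
    have hr : ∀ (d : (L.ι × A.ι) × Fin 2) (hd : W ≤ O d), res hd (w d) =
        pull c (hd.trans (hO1 d)) (sv d.1) ^ m * pull c (hd.trans (hOA d)) (uv d.1.2) *
      ((((pullU F (hth d.1.1 d.2 W (hd.trans (hOL d)) (hd.trans (hOV d))) (φ.θ d.1.1 (i0, d.2))) ^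
        (n * m))⁻¹ : Γ(PL k, W)ˣ) : Γ(PL k, W)) := by
      intro d hd
      change res hd (_ ^ m * _ * _) = _
      rw [map_mul, map_mul, map_pow, res_pull, res_pull]
      congr 1
    rw [hr e he, hr e' he']
    have e1 := hsv2 c e.1 e'.1 W (he.trans (hO1 e)) (he'.trans (hO1 e')) hW1 hW2
    have e2 := huv2 c e.1.2 e'.1.2 W (he.trans (hOA e)) (he'.trans (hOA e')) hW2
    refine unit_alg (pullU c hW1 (L.g e.1.1 e'.1.1)) (pullU c hW2 (A.g e.1.2 e'.1.2)) _ _ n m _ _ _ _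
      e1 e2 ?_
    · have e3 := φ.compat e.1.1 e'.1.1 (i0, e.2) (i0, e'.2)
        (((σ ⁻¹ᵁ L.U e.1.1) ⊓ UU k (i0, e.2)) ⊓ ((σ ⁻¹ᵁ L.U e'.1.1) ⊓ UU k (i0, e'.2)))
        (inf_le_left.trans inf_le_left) (inf_le_right.trans inf_le_left)
        (inf_le_left.trans inf_le_right) (inf_le_right.trans inf_le_right)
      have hW3 : W ≤ F ⁻¹ᵁ (((σ ⁻¹ᵁ L.U e.1.1) ⊓ UU k (i0, e.2)) ⊓
          ((σ ⁻¹ᵁ L.U e'.1.1) ⊓ UU k (i0, e'.2))) :=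
        le_pre_inf F (hth e.1.1 e.2 W (he.trans (hOL e)) (he.trans (hOV e)))
          (hth e'.1.1 e'.2 W (he'.trans (hOL e')) (he'.trans (hOV e')))
      have e4 := congrArg (pullU F hW3) e3
      have e5 : (L10 k).g (i0, e.2) (i0, e'.2) = 1 := u1_trivial k i0 e.2 e'.2
      rw [e5, map_one, mul_one, map_mul, pullU_resU, pullU_resU, pullU_resU] at e4
      refine e4.trans ?_
      congr 1
      exact pullU_pullU σ F _ _ _)
  -- the point `y`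
  obtain ⟨i, hi⟩ := L.covers (c y)
  obtain ⟨j, hj⟩ := A.covers (c y)
  obtain ⟨l, hl⟩ := cover k y
  have hyO : y ∈ O ((i, j), l) := ⟨⟨hi, hj⟩, hl⟩
  have hys : c y ∈ P.basicOpen (sv (i, j)) := hsv1 (c y) (i, j) hi hj hcy1
  have hyu : c y ∈ P.basicOpen (uv j) := huv1 (c y) j hj hcy2
  have hyw : y ∈ (PL k).basicOpen (w ((i, j), l)) := by
    change y ∈ (PL k).basicOpen (_ ^ m * _ * _)
    rw [Scheme.basicOpen_mul, Scheme.basicOpen_mul]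
    refine ⟨⟨?_, ?_⟩, ?_⟩
    · exact mem_pow _ m y ((mem_basicOpen_pull c _ _ y).2 ⟨hyO, hys⟩)
    · exact (mem_basicOpen_pull c _ _ y).2 ⟨hyO, hyu⟩
    · rw [Scheme.basicOpen_of_isUnit _ (Units.isUnit _)]
      exact hyO
  have ht0 : t ≠ 0 := by
    intro h0
    have h3 := ht ((i, j), l)
    rw [h0, map_zero] at h3
    rw [← h3, Scheme.basicOpen_zero] at hyw
    exact hyw
  have hunit : IsUnit t := by
    let _ := (isField_PL k).toField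
    exact IsUnit.mk0 t ht0
  have hall : ∀ p : PL k, c p ∈ u.nonvanishing := by
    intro p
    obtain ⟨i, hi⟩ := L.covers (c p)
    obtain ⟨j, hj⟩ := A.covers (c p)
    obtain ⟨l, hl⟩ := cover k p
    have hpO : p ∈ O ((i, j), l) := ⟨⟨hi, hj⟩, hl⟩
    have h4 := hunit.map (res (le_top : O ((i, j), l) ≤ ⊤))
    rw [ht] at h4
    have h5 : IsUnit (pull c (hOA ((i, j), l)) (uv j)) :=
      isUnit_of_mul_isUnit_right (isUnit_of_mul_isUnit_left h4)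
    have h6 : p ∈ (PL k).basicOpen (pull c (hOA ((i, j), l)) (uv j)) := by
      rw [Scheme.basicOpen_of_isUnit _ h5]
      exact hpO
    exact huv3 (c p) j ((mem_basicOpen_pull c _ _ p).1 h6).2
  obtain ⟨a, b, hab⟩ := two_points k
  apply hab
  have h7 := const_of_affine k u.nonvanishing haff c hall a b
  have h8 : c ≫ π ≫ p2 k = 𝟙 _ := by
    change (F ≫ σ) ≫ π ≫ p2 k = _
    rw [← Category.assoc (F ≫ σ), Category.assoc F, hσ, Category.comp_id]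
    exact F1_p2 k q1 h1
  have h9 : ∀ p, p2 k (π (c p)) = p := by
    intro p
    rw [← Scheme.Hom.comp_apply, ← Scheme.Hom.comp_apply, h8]
    rfl
  rw [← h9 a, ← h9 b, h7]

theorem baseLocus [IsAlgClosed k] {P : Scheme.{0}} (π : P ⟶ XX k) (Q : InvQuot (EE k) π)
    (hQ : IsProjectiveBundle Q) (A : LineSheaf P) (hA : A.IsAmple) :
    π '' essentialBaseLocus Q.L A = Set.univ := by
  obtain ⟨σ, ⟨h, hiso⟩, -⟩ := hQ (XX k) (𝟙 _) (QL k)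
  obtain ⟨φ⟩ := iso_of_cast h (Q.pullback σ) (QL k) hiso
  rw [Set.eq_univ_iff_forall]
  intro x
  refine ⟨σ x, ?_, ?_⟩
  · intro n hn s
    exact no_section k σ π h Q.L A φ hA x n s
  · rw [← Scheme.Hom.comp_apply, h]
    rfl

end

end Pool.Agent.Helper922.Base
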