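import Pool.Agent.Helper922.SemiStable

set_option autoImplicit false

open AlgebraicGeometry CategoryTheory Limits TopologicalSpace

namespace Pool.Agent.Helper922.Big

open Bundles P1 PP Glue Secs Semi

noncomputable section

variable (k : Type) [Field k]

theorem EE_frame0 (a b : Fin 2 × Fin 2) (W : (XX k).Opens) (ha : W ≤ UU k a) (hb : W ≤ UU k b) :
    (∑ a', MvPolynomial.C (res (le_inf ha hb) ((dg (u1 k a b) (u2 k a b)) a' 0)) *
      (MvPolynomial.X a' : MvPolynomial (Fin 2) Γ(XX k, W))) =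
    MvPolynomial.C (res ha (f1 k a b.1)) * MvPolynomial.X 0 := by
  rw [Fin.sum_univ_two]
  have h0 : ((dg (u1 k a b) (u2 k a b)) 0 0) = (u1 k a b : Γ(XX k, UU k a ⊓ UU k b)) := rfl
  have h1 : ((dg (u1 k a b) (u2 k a b)) 1 0) = (0 : Γ(XX k, UU k a ⊓ UU k b)) := rfl
  rw [h0, h1, map_zero, map_zero, zero_mul, add_zero, ← coe_resU, u1_coe k a b W ha hb]

theorem EE_frame1 (a b : Fin 2 × Fin 2) (W : (XX k).Opens) (ha : W ≤ UU k a) (hb : W ≤ UU k b) :
    (∑ a', MvPolynomial.C (res (le_inf ha hb) ((dg (u1 k a b) (u2 k a b)) a' 1)) *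
      (MvPolynomial.X a' : MvPolynomial (Fin 2) Γ(XX k, W))) =
    MvPolynomial.C (res ha (f2 k a b.2)) * MvPolynomial.X 1 := by
  rw [Fin.sum_univ_two]
  have h0 : ((dg (u1 k a b) (u2 k a b)) 0 1) = (0 : Γ(XX k, UU k a ⊓ UU k b)) := rfl
  have h1 : ((dg (u1 k a b) (u2 k a b)) 1 1) = (u2 k a b : Γ(XX k, UU k a ⊓ UU k b)) := rfl
  rw [h0, h1, map_zero, map_zero, zero_mul, zero_add, ← coe_resU, u2_coe k a b W ha hb]

def secf (p i r j : ℕ) (a : Fin 2 × Fin 2) : MvPolynomial (Fin 2) Γ(XX k, UU k a) :=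
  MvPolynomial.C (f1 k a 0 ^ p * f1 k a 1 ^ i * (f2 k a 0 ^ r * f2 k a 1 ^ j)) *
    (MvPolynomial.X 0 ^ (p + i) * MvPolynomial.X 1 ^ (r + j))

theorem secf_compat (p i r j : ℕ) (a b : Fin 2 × Fin 2) (W : (XX k).Opens) (ha : W ≤ UU k a)
    (hb : W ≤ UU k b) :
    MvPolynomial.map (res ha) (secf k p i r j a) =
      MvPolynomial.eval₂ (MvPolynomial.C.comp (res hb))
        (fun b' => ∑ a', MvPolynomial.C (res (le_inf ha hb) ((dg (u1 k a b) (u2 k a b)) a' b')) *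
          MvPolynomial.X a') (secf k p i r j b) := by
  have hL : MvPolynomial.map (res ha) (secf k p i r j a) =
      MvPolynomial.C (res ha (f1 k a 0 ^ p * f1 k a 1 ^ i * (f2 k a 0 ^ r * f2 k a 1 ^ j))) *
        (MvPolynomial.X 0 ^ (p + i) * MvPolynomial.X 1 ^ (r + j)) := by
    unfold secf
    rw [map_mul (MvPolynomial.map (res ha)), MvPolynomial.map_C]
    congr 1
    rw [map_mul, map_pow, map_pow, MvPolynomial.map_X, MvPolynomial.map_X]
  rw [hL]
  unfold secf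
  rw [MvPolynomial.eval₂_mul, MvPolynomial.eval₂_C, MvPolynomial.eval₂_mul,
    MvPolynomial.eval₂_pow, MvPolynomial.eval₂_pow, MvPolynomial.eval₂_X, MvPolynomial.eval₂_X,
    EE_frame0 k a b W ha hb, EE_frame1 k a b W ha hb, RingHom.comp_apply]
  have h : res ha (f1 k a 0 ^ p * f1 k a 1 ^ i * (f2 k a 0 ^ r * f2 k a 1 ^ j)) =
      res hb (f1 k b 0 ^ p * f1 k b 1 ^ i * (f2 k b 0 ^ r * f2 k b 1 ^ j)) *
        (res ha (f1 k a b.1) ^ (p + i) * res ha (f2 k a b.2) ^ (r + j)) := by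
    simp only [map_mul, map_pow]
    rw [← f1_rel k a b 0 W ha hb, ← f1_rel k a b 1 W ha hb, ← f2_rel k a b 0 W ha hb,
      ← f2_rel k a b 1 W ha hb]
    ring
  rw [h, MvPolynomial.C_mul, MvPolynomial.C_mul, MvPolynomial.C_pow, MvPolynomial.C_pow]
  ring

def sec (n p i r j : ℕ) (hn : p + i + (r + j) = n) : (EE k).SymSection n where
  s := secf k p i r j
  homogeneous a := by
    have h := (MvPolynomial.isHomogeneous_C (Fin 2)
      (f1 k a 0 ^ p * f1 k a 1 ^ i * (f2 k a 0 ^ r * f2 k a 1 ^ j))).mul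
      (((MvPolynomial.isHomogeneous_X Γ(XX k, UU k a) (0 : Fin 2)).pow (p + i)).mul
      ((MvPolynomial.isHomogeneous_X Γ(XX k, UU k a) (1 : Fin 2)).pow (r + j)))
    have h2 : 0 + (1 * (p + i) + 1 * (r + j)) = n := by omega
    rw [h2] at h
    exact h
  compat a b W ha hb := secf_compat k p i r j a b W ha hb

/-! restriction to the chart `(0,0)` -/

theorem jj_str (a : Fin 2 × Fin 2) : jj k a ≫ strX k =
    Spec.map (CommRingCat.ofHom (MvPolynomial.C : k →+* R2 k)) := by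
  change jj k a ≫ p1 k ≫ strP k = _
  rw [← Category.assoc, jj_p1, Category.assoc, kap_str, ← Spec.map_comp]
  congr 1
  apply CommRingCat.hom_ext
  apply RingHom.ext
  intro x
  simp [co]

theorem le_jj (a : Fin 2 × Fin 2) : ⊤ ≤ jj k a ⁻¹ᵁ UU k a :=
  top_le_pre_range _ _ (jj_range k a)

def psi (a : Fin 2 × Fin 2) : Γ(XX k, UU k a) →+* R2 k :=
  (Scheme.ΓSpecIso (CommRingCat.of (R2 k))).hom.hom.comp (pull (jj k a) (le_jj k a))

theorem pull_congr {X Y : Scheme.{0}} {f g : Y ⟶ X} (h : f = g) {U : X.Opens} {W : Y.Opens}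
    (h1 : W ≤ f ⁻¹ᵁ U) (h2 : W ≤ g ⁻¹ᵁ U) (s : Γ(X, U)) : pull f h1 s = pull g h2 s := by
  subst h; rfl

theorem pull_Spec_map {R S : Type} [CommRing R] [CommRing S] (φ : R →+* S) (r : R)
    (h : ⊤ ≤ Spec.map (CommRingCat.ofHom φ) ⁻¹ᵁ ⊤) :
    pull (Spec.map (CommRingCat.ofHom φ)) h ((Scheme.ΓSpecIso (CommRingCat.of R)).inv.hom r) =
      (Scheme.ΓSpecIso (CommRingCat.of S)).inv.hom (φ r) := by
  unfold pull
  rw [appLE_top_top]
  exact congr(($(Scheme.ΓSpecIso_inv_naturality (CommRingCat.ofHom φ))).hom r).symm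

theorem psi_base (a : Fin 2 × Fin 2) (c : k) :
    psi k a (baseHom (strX k) (UU k a) c) = MvPolynomial.C c := by
  unfold psi baseHom
  have h0 : ⊤ ≤ Spec.map (CommRingCat.ofHom (MvPolynomial.C : k →+* R2 k)) ⁻¹ᵁ ⊤ := fun _ _ => trivial
  rw [RingHom.comp_apply, RingHom.comp_apply, pull_pull,
    pull_congr (jj_str k a) _ h0, pull_Spec_map (MvPolynomial.C : k →+* R2 k) c h0]
  rw [← RingHom.comp_apply, ← CommRingCat.hom_comp, Iso.inv_hom_id]
  rfl

theorem psi_f1 (a : Fin 2 × Fin 2) (j : Fin 2) :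
    psi k a (f1 k a j) = co k 0 (dehom k a.1 (MvPolynomial.X j)) := by
  unfold psi f1
  have h1 : ⊤ ≤ (pr k 0 ≫ kap k a.1) ⁻¹ᵁ VV k a.1 := by
    intro x _
    exact le_kap_pre k a.1 trivial
  rw [RingHom.comp_apply, pull_pull, pull_congr (jj_p1 k a) _ h1]
  have h0 : ⊤ ≤ Spec.map (CommRingCat.ofHom (co k 0)) ⁻¹ᵁ ⊤ := fun _ _ => trivial
  have h2 := pull_pull (kap k a.1) (Spec.map (CommRingCat.ofHom (co k 0))) (le_kap_pre k a.1) h0 (fr k a.1 j)
  rw [kap_fr, pull_Spec_map (co k 0) _ h0] at h2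
  rw [← h2, ← RingHom.comp_apply, ← CommRingCat.hom_comp, Iso.inv_hom_id]
  rfl

theorem psi_f2 (a : Fin 2 × Fin 2) (j : Fin 2) :
    psi k a (f2 k a j) = co k 1 (dehom k a.2 (MvPolynomial.X j)) := by
  unfold psi f2
  have h1 : ⊤ ≤ (pr k 1 ≫ kap k a.2) ⁻¹ᵁ VV k a.2 := by
    intro x _
    exact le_kap_pre k a.2 trivial
  rw [RingHom.comp_apply, pull_pull, pull_congr (jj_p2 k a) _ h1]
  have h0 : ⊤ ≤ Spec.map (CommRingCat.ofHom (co k 1)) ⁻¹ᵁ ⊤ := fun _ _ => trivial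
  have h2 := pull_pull (kap k a.2) (Spec.map (CommRingCat.ofHom (co k 1))) (le_kap_pre k a.2) h0 (fr k a.2 j)
  rw [kap_fr, pull_Spec_map (co k 1) _ h0] at h2
  rw [← h2, ← RingHom.comp_apply, ← CommRingCat.hom_comp, Iso.inv_hom_id]
  rfl

def mo (a b : ℕ) : Fin 2 →₀ ℕ := Finsupp.single 0 a + Finsupp.single 1 b

theorem mo_inj {a b a' b' : ℕ} (h : mo a b = mo a' b') : a = a' ∧ b = b' := by
  constructor
  · simpa [mo] using DFunLike.congr_fun h 0
  · simpa [mo] using DFunLike.congr_fun h 1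

theorem monomial_mo {R : Type} [CommRing R] (a b : ℕ) (r : R) :
    (MvPolynomial.monomial (mo a b) r) = MvPolynomial.C r * (MvPolynomial.X 0 ^ a * MvPolynomial.X 1 ^ b) := by
  rw [MvPolynomial.X_pow_eq_monomial, MvPolynomial.X_pow_eq_monomial, MvPolynomial.monomial_mul,
    MvPolynomial.C_mul_monomial, mul_one, mul_one]
  rfl

theorem psi_secf (p i r j : ℕ) (c : k) :
    MvPolynomial.map (psi k (0, 0)) (MvPolynomial.C (baseHom (strX k) (UU k (0, 0)) c) *
      secf k p i r j (0, 0)) =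
    MvPolynomial.monomial (mo (p + i) (r + j)) (MvPolynomial.monomial (mo i j) c) := by
  have h10 : psi k (0, 0) (f1 k (0, 0) 0) = 1 := by
    rw [psi_f1]; simp [dehom, co]
  have h11 : psi k (0, 0) (f1 k (0, 0) 1) = MvPolynomial.X 0 := by
    rw [psi_f1]; simp [dehom, co]
  have h20 : psi k (0, 0) (f2 k (0, 0) 0) = 1 := by
    rw [psi_f2]; simp [dehom, co]
  have h21 : psi k (0, 0) (f2 k (0, 0) 1) = MvPolynomial.X 1 := by
    rw [psi_f2]; simp [dehom, co]
  have h3 : psi k (0, 0) (f1 k (0, 0) 0 ^ p * f1 k (0, 0) 1 ^ i * (f2 k (0, 0) 0 ^ r * f2 k (0, 0) 1 ^ j)) =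
      MvPolynomial.X 0 ^ i * MvPolynomial.X 1 ^ j := by
    rw [map_mul, map_mul, map_mul, map_pow, map_pow, map_pow, map_pow, h10, h11, h20, h21,
      one_pow, one_pow, one_mul, one_mul]
  unfold secf
  rw [map_mul (MvPolynomial.map (psi k (0, 0))), map_mul (MvPolynomial.map (psi k (0, 0))),
    map_mul (MvPolynomial.map (psi k (0, 0))), map_pow, map_pow, MvPolynomial.map_C,
    MvPolynomial.map_C, MvPolynomial.map_X, MvPolynomial.map_X, h3, psi_base, monomial_mo,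
    monomial_mo, ← mul_assoc, ← MvPolynomial.C_mul]

theorem many_sections (q : ℕ) : SymSectionsAtLeast (strX k) (EE k) (3 * q) ((q + 1) ^ 3) := by
  have hcard : Fintype.card (Fin (q + 1) × Fin (q + 1) × Fin (q + 1)) = (q + 1) ^ 3 := by
    simp [Fintype.card_prod]
    ring
  let e : Fin ((q + 1) ^ 3) ≃ Fin (q + 1) × Fin (q + 1) × Fin (q + 1) :=
    (Fintype.equivFinOfCardEq hcard).symm
  refine ⟨fun l => sec k (3 * q) (2 * q - (e l).1 - (e l).2.1) (e l).2.1
    (q + (e l).1 - (e l).2.2) (e l).2.2 (by omega), ?_⟩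
  intro c hc l₀
  have h : ∑ l, (MvPolynomial.C (baseHom (strX k) (UU k (0, 0)) (c l)) *
      secf k (2 * q - (e l).1 - (e l).2.1) (e l).2.1 (q + (e l).1 - (e l).2.2) (e l).2.2 (0, 0)) = 0 :=
    hc (0, 0)
  have h1 := congrArg (MvPolynomial.map (psi k (0, 0))) h
  rw [map_sum, map_zero] at h1
  have h2 : ∀ l, MvPolynomial.map (psi k (0, 0)) (MvPolynomial.C (baseHom (strX k) (UU k (0, 0)) (c l)) *
      secf k (2 * q - (e l).1 - (e l).2.1) (e l).2.1 (q + (e l).1 - (e l).2.2) (e l).2.2 (0, 0)) =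
      MvPolynomial.monomial (mo (2 * q - (e l).1) (q + (e l).1))
        (MvPolynomial.monomial (mo (e l).2.1 (e l).2.2) (c l)) := by
    intro l
    have e1 : 2 * q - (e l).1 - (e l).2.1 + ((e l).2.1 : ℕ) = 2 * q - (e l).1 := by omega
    have e2 : q + (e l).1 - (e l).2.2 + ((e l).2.2 : ℕ) = q + (e l).1 := by omega
    rw [psi_secf, e1, e2]
  have h3 : ∑ l, MvPolynomial.monomial (mo (2 * q - (e l).1) (q + (e l).1))
        (MvPolynomial.monomial (mo (e l).2.1 (e l).2.2) (c l)) = 0 := by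
    rw [← h1]
    exact Finset.sum_congr rfl fun l _ => (h2 l).symm
  have h4 := congrArg (MvPolynomial.coeff (mo (2 * q - (e l₀).1) (q + (e l₀).1))) h3
  rw [MvPolynomial.coeff_sum, MvPolynomial.coeff_zero] at h4
  have h5 := congrArg (MvPolynomial.coeff (mo (e l₀).2.1 (e l₀).2.2)) h4
  rw [MvPolynomial.coeff_sum, MvPolynomial.coeff_zero] at h5
  rw [Finset.sum_eq_single l₀] at h5
  · simpa [MvPolynomial.coeff_monomial] using h5
  · intro l _ hne
    rw [MvPolynomial.coeff_monomial]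
    split_ifs with h6
    · rw [MvPolynomial.coeff_monomial]
      split_ifs with h7
      · exfalso
        apply hne
        apply e.injective
        have h8 := mo_inj h6
        have h9 := mo_inj h7
        refine Prod.ext (Fin.ext (by omega)) (Prod.ext (Fin.ext h9.1) (Fin.ext h9.2))
      · rfl
    · simp
  · intro h6
    exact absurd (Finset.mem_univ _) h6

theorem isBig : IsBig (strX k) (EE k) := by
  obtain ⟨d, hd⟩ : ∃ d : ℕ, topologicalKrullDim (XX k) = d := by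
    have h1 := dim_le k
    have hne : Nonempty (XX k) := inferInstance
    have h2 : topologicalKrullDim (XX k) ≠ ⊥ := by
      intro h
      have h3 : (0 : WithBot ℕ∞) ≤ topologicalKrullDim (XX k) := by
        have : Nonempty (IrreducibleCloseds (XX k)) := ⟨irreducibleSetEquivPoints.symm hne.some⟩
        exact Order.krullDim_nonneg
      rw [h] at h3
      exact absurd h3 (by simp)
    obtain ⟨d', hd'⟩ := WithBot.ne_bot_iff_exists.1 h2
    rw [← hd'] at h1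
    have h4 : d' ≤ (2 : ℕ) := WithBot.coe_le_coe.1 h1
    have h5 : d' ≠ ⊤ := ne_top_of_le_ne_top (ENat.natCast_ne_top 2) h4
    obtain ⟨d, hd⟩ := ENat.ne_top_iff_exists.1 h5
    exact ⟨d, by rw [← hd', ← hd]; rfl⟩
  have hd2 : d ≤ 2 := by
    have h := dim_le k
    rw [hd] at h
    exact_mod_cast h
  refine ⟨d, hd, 1 / 27, by norm_num, 3, by norm_num, ?_⟩
  intro n hn hdvd
  obtain ⟨q, rfl⟩ := hdvd
  refine ⟨(q + 1) ^ 3, ?_, many_sections k q⟩
  have h1 : (((3 * q : ℕ) : ℝ)) ^ (d + 2 - 1) ≤ (((3 * q : ℕ) : ℝ)) ^ 3 := by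
    apply pow_le_pow_right₀
    · exact_mod_cast (by omega : 1 ≤ 3 * q)
    · omega
  have h2 : (((3 * q : ℕ) : ℝ)) ^ 3 = 27 * (q : ℝ) ^ 3 := by push_cast; ring
  have h3 : (q : ℝ) ^ 3 ≤ ((q : ℝ) + 1) ^ 3 := by
    apply pow_le_pow_left₀ (by positivity)
    linarith
  push_cast at h1 h2 ⊢
  linarith

end

end Pool.Agent.Helper922.Big
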