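import Mathlib

set_option autoImplicit false

open AlgebraicGeometry CategoryTheory

namespace Pool.Agent.Helper922.VS

noncomputable section

/-! ### Algebra -/

/-- `GL_r(R)` -/
abbrev GLn (r : ℕ) (R : Type) [CommRing R] : Type := Matrix.GeneralLinearGroup (Fin r) R

/-- The map `GL_r(R) → GL_r(S)` induced by a ring homomorphism. -/
def glMap {R S : Type} [CommRing R] [CommRing S] {r : ℕ} (φ : R →+* S) (x : GLn r R) : GLn r S :=
  Matrix.GeneralLinearGroup.map φ x

/-- The product of an invertible matrix and a column vector. -/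
def act {R : Type} [CommRing R] {r : ℕ} (M : GLn r R) (v : Fin r → R) : Fin r → R :=
  fun a => ∑ b, M a b * v b

/-- The product of a row vector and an invertible matrix. -/
def coact {R : Type} [CommRing R] {r : ℕ} (v : Fin r → R) (M : GLn r R) : Fin r → R :=
  fun b => ∑ a, v a * M a b

/-- The product of a scalar and a vector. -/
def scale {R : Type} [CommRing R] {r : ℕ} (u : R) (v : Fin r → R) : Fin r → R :=
  fun a => u * v a

/-- Base change of a polynomial along `φ : R → S` followed by the linear substitution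
`X_b ↦ ∑ a, M a b * X_a`. -/
def subst {R S : Type} [CommRing R] [CommRing S] {r : ℕ} (φ : R →+* S) (M : GLn r S)
    (F : MvPolynomial (Fin r) R) : MvPolynomial (Fin r) S :=
  MvPolynomial.eval₂ (MvPolynomial.C.comp φ)
    (fun b => ∑ a, MvPolynomial.C (M a b) * MvPolynomial.X a) F

/-- A homomorphism of algebraic groups `GL_r → GL_{r'}` over `k`, given on the functors of points:
for every `k`-algebra `φ : k → A` a homomorphism `GL_r(A) → GL_{r'}(A)`, natural in `A`. -/
structure AlgRep (k : Type) [Field k] (r r' : ℕ) where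
  map : ∀ (A : Type) [CommRing A], (k →+* A) → GLn r A → GLn r' A
  map_mul : ∀ (A : Type) [CommRing A] (φ : k →+* A) (x y : GLn r A),
    map A φ (x * y) = map A φ x * map A φ y
  natural : ∀ (A B : Type) [CommRing A] [CommRing B] (φ : k →+* A) (f : A →+* B) (x : GLn r A),
    glMap f (map A φ x) = map B (f.comp φ) (glMap f x)

/-- The representation factors through `PGL_r`: it is trivial on scalar matrices. -/
def AlgRep.FactorsThroughPGL {k : Type} [Field k] {r r' : ℕ} (ρ : AlgRep k r r') : Prop :=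
  ∀ (A : Type) [CommRing A] (φ : k →+* A) (u : Aˣ),
    ρ.map A φ (Matrix.GeneralLinearGroup.scalar (Fin r) u) = 1

/-! ### Regular functions -/

/-- The regular functions on the open subset `U` of the scheme `X`. -/
def Reg (X : Scheme.{0}) (U : X.Opens) : Type := Γ(X, U)

@[instance_reducible] def regRing (X : Scheme.{0}) (U : X.Opens) : CommRing (Reg X U) :=
  (inferInstance : CommRing Γ(X, U))

attribute [instance] regRing

/-- Restriction of regular functions to a smaller open set. -/
def res {X : Scheme.{0}} {U V : X.Opens} (h : U ≤ V) : Reg X V →+* Reg X U :=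
  (X.presheaf.map (homOfLE h).op).hom

def rs {X : Scheme.{0}} {U V : X.Opens} (h : U ≤ V) (s : Reg X V) : Reg X U := res h s

/-- Pull-back of regular functions on `U` along a morphism `f`, restricted to an open subset `W`
of the preimage of `U`. -/
def pull {X Y : Scheme.{0}} (f : Y ⟶ X) {U : X.Opens} {W : Y.Opens} (h : W ≤ f ⁻¹ᵁ U) :
    Reg X U →+* Reg Y W :=
  (f.appLE U W h).hom

def pl {X Y : Scheme.{0}} (f : Y ⟶ X) {U : X.Opens} {W : Y.Opens} (h : W ≤ f ⁻¹ᵁ U)
    (s : Reg X U) : Reg Y W := pull f h s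

/-- The open set where a regular function does not vanish. -/
def nz {X : Scheme.{0}} {U : X.Opens} (s : Reg X U) : X.Opens := X.basicOpen s

/-! ### Vector sheaves -/

/-- A vector sheaf (locally free sheaf) of rank `r` on `X`, given by transition matrices:
an open cover `U i` and matrices `g i j` in `GL_r` of the functions on `U i ∩ U j` with
`g i j * g j k = g i k` wherever all three are defined. -/
structure VectorSheaf (X : Scheme.{0}) (r : ℕ) where
  ι : Type
  U : ι → X.Opens
  covers : ∀ x : X, ∃ i, x ∈ U i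
  g : ∀ i j, GLn r (Reg X (U i ⊓ U j))
  cocycle : ∀ (i j k : ι) (W : X.Opens) (hi : W ≤ U i) (hj : W ≤ U j) (hk : W ≤ U k),
    glMap (res (le_inf hi hj)) (g i j) * glMap (res (le_inf hj hk)) (g j k) =
      glMap (res (le_inf hi hk)) (g i k)

/-- A line sheaf (invertible sheaf) on `X`, given by transition functions. -/
structure LineSheaf (X : Scheme.{0}) where
  ι : Type
  U : ι → X.Opens
  covers : ∀ x : X, ∃ i, x ∈ U i
  g : ∀ i j, Reg X (U i ⊓ U j)
  self : ∀ i, g i i = 1
  cocycle : ∀ (i j k : ι) (W : X.Opens) (hi : W ≤ U i) (hj : W ≤ U j) (hk : W ≤ U k),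
    rs (le_inf hi hj) (g i j) * rs (le_inf hj hk) (g j k) = rs (le_inf hi hk) (g i k)

/-- A global section of the `n`-th tensor power `L^n` of a line sheaf (`n` a natural number):
functions `s i` on `U i` with `s i = (g i j)^n * s j` on overlaps. -/
structure LineSheaf.PowSection {X : Scheme.{0}} (L : LineSheaf X) (n : ℕ) where
  s : ∀ i, Reg X (L.U i)
  compat : ∀ (i j : L.ι) (W : X.Opens) (hi : W ≤ L.U i) (hj : W ≤ L.U j),
    rs hi (s i) = rs (le_inf hi hj) (L.g i j) ^ n * rs hj (s j)

/-- The open set where the section does not vanish. -/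
def LineSheaf.PowSection.nonvanishing {X : Scheme.{0}} {L : LineSheaf X} {n : ℕ}
    (s : L.PowSection n) : X.Opens := ⨆ i, nz (s.s i)

/-- A line sheaf `A` on `X` is ample if `X` is quasi-compact and every point of `X` has a
neighbourhood of the form `X_s`, affine, for a section `s` of some positive power of `A`. -/
def LineSheaf.IsAmple {X : Scheme.{0}} (A : LineSheaf X) : Prop :=
  CompactSpace X ∧ ∀ x : X, ∃ (n : ℕ) (s : A.PowSection n), 0 < n ∧
    x ∈ s.nonvanishing ∧ IsAffineOpen s.nonvanishing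

/-- A global section of `L^n ⊗ A^(-1)`: functions `s i j` on `L.U i ∩ A.U j` that are multiplied
by `(L.g i i')^n * (A.g j j')^(-1)` when passing from `(i', j')` to `(i, j)`. -/
structure TwistSection {X : Scheme.{0}} (L A : LineSheaf X) (n : ℕ) where
  s : ∀ (i : L.ι) (j : A.ι), Reg X (L.U i ⊓ A.U j)
  compat : ∀ (i i' : L.ι) (j j' : A.ι) (W : X.Opens) (hi : W ≤ L.U i) (hi' : W ≤ L.U i')
    (hj : W ≤ A.U j) (hj' : W ≤ A.U j'),
    rs (le_inf hj hj') (A.g j j') * rs (le_inf hi hj) (s i j) =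
      rs (le_inf hi hi') (L.g i i') ^ n * rs (le_inf hi' hj') (s i' j')

/-- The essential base locus of a line sheaf `L`, computed with the (ample) line sheaf `A`:
the set of points where, for all `n > 0`, all sections of `L^n ⊗ A^(-1)` vanish. -/
def essentialBaseLocus {X : Scheme.{0}} (L A : LineSheaf X) : Set X :=
  {x | ∀ n : ℕ, 0 < n → ∀ (s : TwistSection L A n) (i : L.ι) (j : A.ι), x ∉ nz (s.s i j)}

/-! ### The projective bundle `P(E)` -/

/-- An invertible quotient of the pull-back `f^* E`: a line sheaf `L` on `T` with a surjection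
`f^* E → L`. In the trivialisations `i` of `E` and `c` of `L` the surjection is the row vector
`q i c`. -/
structure InvQuot {X T : Scheme.{0}} {r : ℕ} (E : VectorSheaf X r) (f : T ⟶ X) where
  L : LineSheaf T
  q : ∀ (i : E.ι) (c : L.ι), Fin r → Reg T (f ⁻¹ᵁ E.U i ⊓ L.U c)
  compat : ∀ (i j : E.ι) (c d : L.ι) (W : T.Opens) (hi : W ≤ f ⁻¹ᵁ E.U i) (hj : W ≤ f ⁻¹ᵁ E.U j)
    (hc : W ≤ L.U c) (hd : W ≤ L.U d) (hij : W ≤ f ⁻¹ᵁ (E.U i ⊓ E.U j)),
    coact (fun a => rs (le_inf hi hc) (q i c a)) (glMap (pull f hij) (E.g i j)) =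
      scale (rs (le_inf hc hd) (L.g c d)) (fun a => rs (le_inf hj hd) (q j d a))
  surjective : ∀ (i : E.ι) (c : L.ι) (t : T), t ∈ f ⁻¹ᵁ E.U i → t ∈ L.U c → ∃ a, t ∈ nz (q i c a)

/-- For `σ : S ⟶ T` and quotients `Q` of `f^* E` on `T` and `Q'` of `f'^* E` on `S`, where
`f' = σ ≫ f`: the quotients `σ^* Q` and `Q'` of `f'^* E` are isomorphic, that is, locally the row
vectors of `σ^* Q` and `Q'` differ by an invertible function. -/
def InvQuot.PullsBackTo {X T S : Scheme.{0}} {r : ℕ} {E : VectorSheaf X r} {f : T ⟶ X} {f' : S ⟶ X}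
    (Q : InvQuot E f) (σ : S ⟶ T) (Q' : InvQuot E f') : Prop :=
  σ ≫ f = f' ∧ ∃ θ : ∀ (c : Q.L.ι) (d : Q'.L.ι), Reg S (σ ⁻¹ᵁ Q.L.U c ⊓ Q'.L.U d),
    (∀ c d, IsUnit (θ c d)) ∧
    ∀ (i : E.ι) (c : Q.L.ι) (d : Q'.L.ι) (W : S.Opens) (h1 : W ≤ σ ⁻¹ᵁ (f ⁻¹ᵁ E.U i ⊓ Q.L.U c))
      (h2 : W ≤ f' ⁻¹ᵁ E.U i ⊓ Q'.L.U d) (h3 : W ≤ σ ⁻¹ᵁ Q.L.U c ⊓ Q'.L.U d) (a : Fin r),
      pl σ h1 (Q.q i c a) = rs h3 (θ c d) * rs h2 (Q'.q i d a)

/-- The morphism `π : P ⟶ X` with the invertible quotient `Q` of `π^* E` is the projective bundle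
`P(E)` (with `O(1) = Q.L`): it has the universal property that morphisms `T ⟶ P` over `X` are the
same as isomorphism classes of invertible quotients of the pull-back of `E` to `T`. -/
def IsProjectiveBundle {X P : Scheme.{0}} {r : ℕ} {E : VectorSheaf X r} {π : P ⟶ X}
    (Q : InvQuot E π) : Prop :=
  ∀ (T : Scheme.{0}) (f : T ⟶ X) (Q' : InvQuot E f), ∃! σ : T ⟶ P, Q.PullsBackTo σ Q'

/-! ### Varieties over a field, bigness, semistability -/

/-- The ring map from the base field `k` to the functions on an open subset of a `k`-scheme. -/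
def baseHom {k : Type} [Field k] {X : Scheme.{0}} (p : X ⟶ Spec (CommRingCat.of k))
    (U : X.Opens) : k →+* Reg X U :=
  (p.appLE ⊤ U le_top).hom.comp (Scheme.ΓSpecIso (CommRingCat.of k)).inv.hom

/-- `p : X ⟶ Spec k` makes `X` a projective variety: `X` is an integral scheme, proper over `k`,
and carries an ample line sheaf. -/
structure IsProjectiveVariety {k : Type} [Field k] {X : Scheme.{0}}
    (p : X ⟶ Spec (CommRingCat.of k)) : Prop where
  integral : IsIntegral X
  proper : IsProper p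
  ample : ∃ A : LineSheaf X, A.IsAmple

/-- A global section of the symmetric power `S^n E`: over `U i` it is a homogeneous polynomial of
degree `n` in the frame `e_1, …, e_r` of `E` over `U i`; on overlaps the frames are related by
`e_b^{(j)} = ∑ a, g i j a b * e_a^{(i)}`. -/
structure VectorSheaf.SymSection {X : Scheme.{0}} {r : ℕ} (E : VectorSheaf X r) (n : ℕ) where
  s : ∀ i, MvPolynomial (Fin r) (Reg X (E.U i))
  homogeneous : ∀ i, (s i).IsHomogeneous n
  compat : ∀ (i j : E.ι) (W : X.Opens) (hi : W ≤ E.U i) (hj : W ≤ E.U j),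
    MvPolynomial.map (res hi) (s i) = subst (res hj) (glMap (res (le_inf hi hj)) (E.g i j)) (s j)

/-- A `k`-linear combination of polynomials. -/
def linComb {k R : Type} [CommRing k] [CommRing R] {r m : ℕ} (φ : k →+* R) (c : Fin m → k)
    (F : Fin m → MvPolynomial (Fin r) R) : MvPolynomial (Fin r) R :=
  ∑ l, MvPolynomial.C (φ (c l)) * F l

/-- `h^0(X, S^n E) ≥ m`: there are `m` global sections of `S^n E` that are linearly independent
over `k`. -/
def SymSectionsAtLeast {k : Type} [Field k] {X : Scheme.{0}} (p : X ⟶ Spec (CommRingCat.of k))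
    {r : ℕ} (E : VectorSheaf X r) (n m : ℕ) : Prop :=
  ∃ v : Fin m → E.SymSection n, ∀ c : Fin m → k,
    (∀ i, linComb (baseHom p (E.U i)) c (fun l => (v l).s i) = 0) → ∀ l, c l = 0

/-- `E` is big: for some `c > 0` one has `h^0(X, S^n E) ≥ c n^(dim X + r - 1)` for all
sufficiently large and divisible `n`. -/
def IsBig {k : Type} [Field k] {X : Scheme.{0}} (p : X ⟶ Spec (CommRingCat.of k))
    {r : ℕ} (E : VectorSheaf X r) : Prop :=
  ∃ d : ℕ, topologicalKrullDim X = d ∧ ∃ c : ℝ, 0 < c ∧ ∃ n₀ : ℕ, 0 < n₀ ∧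
    ∀ n : ℕ, n₀ ≤ n → n₀ ∣ n → ∃ m : ℕ, c * (n : ℝ) ^ (d + r - 1) ≤ m ∧ SymSectionsAtLeast p E n m

/-- A global section of the vector sheaf `E^(ρ)`, obtained by applying `ρ` to the transition
matrices of `E`: column vectors `s i` over `U i` with `s i = ρ(g i j) * s j` on overlaps. -/
structure VectorSheaf.AssocSection {k : Type} [Field k] {X : Scheme.{0}}
    (p : X ⟶ Spec (CommRingCat.of k)) {r r' : ℕ} (E : VectorSheaf X r) (ρ : AlgRep k r r') where
  s : ∀ i, Fin r' → Reg X (E.U i)
  compat : ∀ (i j : E.ι) (W : X.Opens) (hi : W ≤ E.U i) (hj : W ≤ E.U j),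
    (fun a => rs hi (s i a)) =
      act (glMap (res (le_inf hi hj)) (ρ.map (Reg X (E.U i ⊓ E.U j)) (baseHom p _) (E.g i j)))
        (fun a => rs hj (s j a))

/-- `E` is semistable in the sense of Bogomolov: for no representation `ρ` factoring through
`PGL_r` does `E^(ρ)` have a nonzero global section vanishing at some point. -/
def IsSemistable {k : Type} [Field k] {X : Scheme.{0}} (p : X ⟶ Spec (CommRingCat.of k))
    {r : ℕ} (E : VectorSheaf X r) : Prop :=
  ∀ (r' : ℕ) (ρ : AlgRep k r r'), ρ.FactorsThroughPGL → ∀ s : E.AssocSection p ρ,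
    (∃ x : X, ∀ i a, x ∉ nz (s.s i a)) → ∀ i a, s.s i a = 0

end

end Pool.Agent.Helper922.VS
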