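import Pool.Agent.Helper922.Base
import Pool.Agent.Helper922.StmtDefs

set_option autoImplicit false

open AlgebraicGeometry CategoryTheory Limits TopologicalSpace

namespace Pool.Agent.Helper922.Bridge

open P1 PP Glue Secs Semi Base

noncomputable section

/-! line sheaves -/

theorem rs_self {X : Scheme.{0}} (L : VS.LineSheaf X) (i j : L.ι) :
    VS.rs (le_inf inf_le_left inf_le_right) (L.g i j) = L.g i j := by
  change (X.presheaf.map (𝟙 _)).hom (L.g i j) = _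
  rw [X.presheaf.map_id]
  rfl

theorem rs_one {X : Scheme.{0}} (L : VS.LineSheaf X) (i : L.ι) {W : X.Opens} (h : W ≤ L.U i ⊓ L.U i) :
    VS.rs h (L.g i i) = 1 := by
  rw [L.self]
  exact map_one (VS.res _)

def oldG {X : Scheme.{0}} (L : VS.LineSheaf X) (i j : L.ι) : Γ(X, L.U i ⊓ L.U j)ˣ where
  val := L.g i j
  inv := Bundles.res (le_inf inf_le_right inf_le_left) (L.g j i)
  val_inv := by
    have h := L.cocycle i j i (L.U i ⊓ L.U j) inf_le_left inf_le_right inf_le_left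
    rw [rs_one, rs_self] at h
    exact h
  inv_val := by
    have h := L.cocycle i j i (L.U i ⊓ L.U j) inf_le_left inf_le_right inf_le_left
    rw [rs_one, rs_self, mul_comm] at h
    exact h

def oldLine {X : Scheme.{0}} (L : VS.LineSheaf X) : Bundles.LineSheaf X where
  ι := L.ι
  U := L.U
  covers := L.covers
  g := oldG L
  cocycle i j k W hi hj hk := Units.ext (L.cocycle i j k W hi hj hk)

theorem oldPow_compat {X : Scheme.{0}} (L : VS.LineSheaf X) (n : ℕ) (s : L.PowSection n)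
    (i j : L.ι) (W : X.Opens) (hi : W ≤ L.U i) (hj : W ≤ L.U j) :
    Bundles.res hi (s.s i) = ((Bundles.resU (le_inf hi hj) (oldG L i j ^ (n : ℤ)) : Γ(X, W)ˣ) :
      Γ(X, W)) * Bundles.res hj (s.s j) := by
  refine (s.compat i j W hi hj).trans ?_
  have h : ((Bundles.resU (le_inf hi hj) (oldG L i j ^ (n : ℤ)) : Γ(X, W)ˣ) : Γ(X, W)) =
      (Bundles.res (le_inf hi hj) (L.g i j)) ^ n := by
    rw [zpow_natCast]
    exact map_pow (Bundles.res (le_inf hi hj)) (L.g i j) n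
  rw [h]
  rfl

def oldPow {X : Scheme.{0}} (L : VS.LineSheaf X) (n : ℕ) (s : L.PowSection n) :
    ((oldLine L).zpow n).Section where
  s := s.s
  compat i j W hi hj := oldPow_compat L n s i j W hi hj

theorem oldTwist_compat {X : Scheme.{0}} (L A : VS.LineSheaf X) (n : ℕ) (s : VS.TwistSection L A n)
    (e e' : L.ι × A.ι) (W : X.Opens) (he : W ≤ L.U e.1 ⊓ A.U e.2) (he' : W ≤ L.U e'.1 ⊓ A.U e'.2)
    (h5 : (L.U e.1 ⊓ A.U e.2) ⊓ (L.U e'.1 ⊓ A.U e'.2) ≤ L.U e.1 ⊓ L.U e'.1)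
    (h6 : (L.U e.1 ⊓ A.U e.2) ⊓ (L.U e'.1 ⊓ A.U e'.2) ≤ A.U e.2 ⊓ A.U e'.2) :
    Bundles.res he (s.s e.1 e.2) =
      ((Bundles.resU (le_inf he he') (Bundles.resU h5 (oldG L e.1 e'.1 ^ (n : ℤ)) *
        Bundles.resU h6 (oldG A e.2 e'.2 ^ (-1 : ℤ))) : Γ(X, W)ˣ) : Γ(X, W)) *
      Bundles.res he' (s.s e'.1 e'.2) := by
  have h := s.compat e.1 e'.1 e.2 e'.2 W (he.trans inf_le_left) (he'.trans inf_le_left)
    (he.trans inf_le_right) (he'.trans inf_le_right)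
  let ga : Γ(X, W)ˣ := Bundles.resU (le_inf (he.trans inf_le_right) (he'.trans inf_le_right))
    (oldG A e.2 e'.2)
  let gl : Γ(X, W)ˣ := Bundles.resU (le_inf (he.trans inf_le_left) (he'.trans inf_le_left))
    (oldG L e.1 e'.1)
  have hg : Bundles.resU (le_inf he he') (Bundles.resU h5 (oldG L e.1 e'.1 ^ (n : ℤ)) *
      Bundles.resU h6 (oldG A e.2 e'.2 ^ (-1 : ℤ))) = gl ^ n * ga⁻¹ := by
    rw [map_mul, Bundles.resU_resU, Bundles.resU_resU, zpow_natCast, map_pow, zpow_neg_one,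
      map_inv]
  have h' : (ga : Γ(X, W)) * Bundles.res he (s.s e.1 e.2) =
      (gl : Γ(X, W)) ^ n * Bundles.res he' (s.s e'.1 e'.2) := h
  rw [hg, Units.val_mul, Units.val_pow_eq_pow_val, mul_right_comm, ← h', mul_right_comm,
    Units.mul_inv, one_mul]

def oldTwist {X : Scheme.{0}} (L A : VS.LineSheaf X) (n : ℕ) (s : VS.TwistSection L A n) :
    (((oldLine L).zpow n).tensor ((oldLine A).zpow (-1))).Section where
  s e := s.s e.1 e.2
  compat e e' W he he' := oldTwist_compat L A n s e e' W he he' _ _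

theorem old_nonvanishing {X : Scheme.{0}} (L : VS.LineSheaf X) (n : ℕ) (s : L.PowSection n) :
    (oldPow L n s).nonvanishing = s.nonvanishing := rfl

theorem oldAmple {X : Scheme.{0}} (A : VS.LineSheaf X) (hA : A.IsAmple) : (oldLine A).IsAmple := by
  refine ⟨hA.1, fun x => ?_⟩
  obtain ⟨n, s, hn, hx, haff⟩ := hA.2 x
  exact ⟨n, hn, oldPow A n s, hx, haff⟩

variable (k : Type) [Field k]

/-- `O(1,1)` -/
def N11 : VS.LineSheaf (XX k) where
  ι := Fin 2 × Fin 2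
  U := UU k
  covers := UU_cover k
  g a b := ((u1 k a b * u2 k a b : Γ(XX k, UU k a ⊓ UU k b)ˣ) : Γ(XX k, UU k a ⊓ UU k b))
  self a := by
    have h1 : (u1 k a a : Γ(XX k, UU k a ⊓ UU k a)) = 1 := by
      change Bundles.res inf_le_left (f1 k a a.1) = 1
      rw [f1_self, map_one]
    have h2 : (u2 k a a : Γ(XX k, UU k a ⊓ UU k a)) = 1 := by
      change Bundles.res inf_le_left (f2 k a a.2) = 1
      rw [f2_self, map_one]
    rw [Units.val_mul, h1, h2]
    exact one_mul (1 : Γ(XX k, UU k a ⊓ UU k a))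
  cocycle a b c W ha hb hc := congrArg Units.val ((L11 k).cocycle a b c W ha hb hc)

def nt11 (c : Fin 2 × Fin 2) : (N11 k).PowSection 1 where
  s a := f1 k a c.1 * f2 k a c.2
  compat a b W ha hb := by
    have h := t11_compat k c a b W ha hb
    rw [Nat.cast_one, zpow_one] at h
    rw [pow_one]
    exact h

theorem nt11_nonvanishing (c : Fin 2 × Fin 2) : (nt11 k c).nonvanishing = UU k c :=
  t11_nonvanishing k c

theorem N11_ample : (N11 k).IsAmple := by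
  refine ⟨(L11_ample k).1, fun x => ?_⟩
  obtain ⟨c, hc⟩ := UU_cover k x
  refine ⟨1, nt11 k c, one_pos, ?_, ?_⟩
  · rw [nt11_nonvanishing]; exact hc
  · rw [nt11_nonvanishing]; exact isAffineOpen_UU k c

theorem projective : VS.IsProjectiveVariety (strX k) :=
  ⟨inferInstance, inferInstance, N11 k, N11_ample k⟩

/-- `O(1,0) ⊕ O(0,1)` -/
def NE : VS.VectorSheaf (XX k) 2 where
  ι := Fin 2 × Fin 2
  U := UU k
  covers := UU_cover k
  g a b := dg (u1 k a b) (u2 k a b)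
  cocycle a b c W ha hb hc := (EE k).cocycle a b c W ha hb hc

/-! bigness -/

def newSym (n : ℕ) (s : (EE k).SymSection n) : (NE k).SymSection n where
  s := s.s
  homogeneous := s.homogeneous
  compat a b W ha hb := s.compat a b W ha hb

theorem isBig : VS.IsBig (strX k) (NE k) := by
  obtain ⟨d, hd, c, hc, n₀, hn₀, h⟩ := Big.isBig k
  refine ⟨d, hd, c, hc, n₀, hn₀, fun n hn hdvd => ?_⟩
  obtain ⟨m, hm, v, hv⟩ := h n hn hdvd
  exact ⟨m, hm, fun l => newSym k n (v l), fun c hc => hv c hc⟩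

/-! semistability -/

def oldRep {r r' : ℕ} (ρ : VS.AlgRep k r r') : Bundles.AlgRep k r r' where
  map A _ φ := MonoidHom.mk' (ρ.map A φ) (ρ.map_mul A φ)
  natural A B _ _ φ f x := ρ.natural A B φ f x

def oldSec {r' : ℕ} (ρ : VS.AlgRep k 2 r') (s : (NE k).AssocSection (strX k) ρ) :
    ((EE k).assoc (strX k) (oldRep k ρ)).Section where
  s := s.s
  compat i j W hi hj a := congrFun (s.compat i j W hi hj) a

theorem semistable [IsAlgClosed k] : VS.IsSemistable (strX k) (NE k) := by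
  intro r' ρ hρ s hx
  obtain ⟨x, hx⟩ := hx
  exact SemiStable.semistable k r' (oldRep k ρ) (fun A _ φ u => hρ A φ u) (oldSec k ρ s)
    ⟨x, fun i _ a => hx i a⟩

/-! base locus -/

/-- `O(1,0)` -/
def N10 : VS.LineSheaf (XX k) where
  ι := Fin 2 × Fin 2
  U := UU k
  covers := UU_cover k
  g a b := (u1 k a b : Γ(XX k, UU k a ⊓ UU k b))
  self a := by
    change Bundles.res inf_le_left (f1 k a a.1) = 1
    rw [f1_self, map_one]
  cocycle a b c W ha hb hc := congrArg Units.val (u1_cocycle k a b c W ha hb hc)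

def NQ : VS.InvQuot (NE k) (𝟙 (XX k)) where
  L := N10 k
  q i c := qv k i c
  compat i j c d W hi hj hc hd _ := funext fun b => qv_compat k i j c d W hi hj hc hd b
  surjective i c t hi hc := qv_surj k i c t hi hc

theorem dg_self (d : Fin 2 × Fin 2) : (dg (u1 k d d) (u2 k d d)) = 1 := by
  have h1 : u1 k d d = 1 := by
    apply Units.ext
    change Bundles.res inf_le_left (f1 k d d.1) = 1
    rw [f1_self, map_one]
  have h2 : u2 k d d = 1 := by
    apply Units.ext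
    change Bundles.res inf_le_left (f2 k d d.2) = 1
    rw [f2_self, map_one]
  rw [h1, h2, dg_one]

/-- the coordinates of `Q` in two trivialisations of `L` -/
theorem q_change {P : Scheme.{0}} {π : P ⟶ XX k} (Q : VS.InvQuot (NE k) π) (d : Fin 2 × Fin 2)
    (c c' : Q.L.ι) (W : P.Opens) (hd : W ≤ π ⁻¹ᵁ UU k d) (hc : W ≤ Q.L.U c) (hc' : W ≤ Q.L.U c')
    (b : Fin 2) :
    Bundles.res (le_inf hd hc) (Q.q d c b) =
      Bundles.res (le_inf hc hc') (Q.L.g c c') * Bundles.res (le_inf hd hc') (Q.q d c' b) := by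
  have hij : W ≤ π ⁻¹ᵁ (UU k d ⊓ UU k d) := Bundles.le_pre_inf π hd hd
  have h := congrFun (Q.compat d d c c' W hd hd hc hc' hij) b
  have h1 : VS.glMap (VS.pull π hij) ((NE k).g d d) = 1 := by
    have h2 : (NE k).g d d = (1 : VS.GLn 2 (VS.Reg (XX k) (UU k d ⊓ UU k d))) := dg_self k d
    rw [h2]
    exact map_one (Matrix.GeneralLinearGroup.map (VS.pull π hij))
  have h4 := (congrArg (fun M => VS.coact (fun a => VS.rs (le_inf hd hc) (Q.q d c a)) M b) h1).symm.trans h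
  have h3 : VS.coact (fun a => VS.rs (le_inf hd hc) (Q.q d c a))
      (1 : VS.GLn 2 (VS.Reg P W)) b = VS.rs (le_inf hd hc) (Q.q d c b) := by
    unfold VS.coact
    rw [Finset.sum_eq_single b]
    · change VS.rs (le_inf hd hc) (Q.q d c b) * (1 : Matrix (Fin 2) (Fin 2) (VS.Reg P W)) b b = _
      rw [Matrix.one_apply_eq, mul_one]
    · intro a _ hne
      change VS.rs (le_inf hd hc) (Q.q d c a) * (1 : Matrix (Fin 2) (Fin 2) (VS.Reg P W)) a b = _
      rw [Matrix.one_apply_ne hne, mul_zero]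
    · intro h
      exact absurd (Finset.mem_univ _) h
  exact h3.symm.trans h4

theorem res_qv (d d' : Fin 2 × Fin 2) (W : (XX k).Opens)
    (h : W ≤ (𝟙 (XX k)) ⁻¹ᵁ UU k d ⊓ UU k d') (h' : W ≤ UU k d') :
    Bundles.res h (qv k d d' 0) = Bundles.res h' (f1 k d' d.1) := by
  rw [qv_zero, Bundles.res_res]

theorem iso_calc {P : Scheme.{0}} (σ : XX k ⟶ P) (A B C : P.Opens) (qc : Γ(P, A ⊓ B))
    (qc' : Γ(P, A ⊓ C)) (g : Γ(P, B ⊓ C))
    (hq : ∀ (W : P.Opens) (h0 : W ≤ A) (h1 : W ≤ B) (h2 : W ≤ C),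
      Bundles.res (le_inf h0 h1) qc = Bundles.res (le_inf h1 h2) g * Bundles.res (le_inf h0 h2) qc')
    (d d' : Fin 2 × Fin 2) (W : (XX k).Opens) (hcW : W ≤ σ ⁻¹ᵁ B) (hcW' : W ≤ σ ⁻¹ᵁ C)
    (hdW : W ≤ UU k d) (hdW' : W ≤ UU k d') (hπ : W ≤ σ ⁻¹ᵁ A)
    (θ : Γ(XX k, σ ⁻¹ᵁ B ⊓ UU k d)) (θ' : Γ(XX k, σ ⁻¹ᵁ C ⊓ UU k d'))
    (e1 : Bundles.pull σ (Bundles.le_pre_inf σ hπ hcW) qc =
      Bundles.res (le_inf hcW hdW) θ * Bundles.res (le_inf hdW hdW) (qv k d d 0))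
    (e2 : Bundles.pull σ (Bundles.le_pre_inf σ hπ hcW') qc' =
      Bundles.res (le_inf hcW' hdW') θ' * Bundles.res (le_inf hdW hdW') (qv k d d' 0)) :
    Bundles.res (le_inf hcW hdW) θ * Bundles.res hdW (f1 k d d'.1) =
      Bundles.pull σ (Bundles.le_pre_inf σ hcW hcW') g * Bundles.res (le_inf hcW' hdW') θ' := by
  have hWP : W ≤ σ ⁻¹ᵁ (A ⊓ (B ⊓ C)) :=
    Bundles.le_pre_inf σ hπ (Bundles.le_pre_inf σ hcW hcW')
  have e3 := congrArg (Bundles.pull σ hWP) (hq (A ⊓ (B ⊓ C))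
    inf_le_left (inf_le_right.trans inf_le_left) (inf_le_right.trans inf_le_right))
  rw [map_mul, Bundles.pull_res, Bundles.pull_res, Bundles.pull_res] at e3
  have e4 : Bundles.res (le_inf hdW hdW) (qv k d d 0) = 1 := by
    refine (res_qv k d d W _ hdW).trans ?_
    rw [f1_self, map_one]
  have e5 : Bundles.res (le_inf hdW hdW') (qv k d d' 0) = Bundles.res hdW' (f1 k d' d.1) :=
    res_qv k d d' W _ hdW'
  rw [e4, mul_one] at e1
  rw [e5] at e2
  have e6 : Bundles.res hdW' (f1 k d' d.1) * Bundles.res hdW (f1 k d d'.1) = 1 := by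
    rw [f1_rel, f1_self, map_one]
  rw [← e1, e3, e2, mul_assoc, mul_assoc, e6, mul_one]

theorem exists_iso {P : Scheme.{0}} {π : P ⟶ XX k} (Q : VS.InvQuot (NE k) π) (σ : XX k ⟶ P)
    (h : Q.PullsBackTo σ (NQ k)) :
    Nonempty (Bundles.LineSheaf.Iso ((oldLine Q.L).pullback σ) (L10 k)) := by
  obtain ⟨hσ, θ, hu, hθ⟩ := h
  have key : ∀ (c : Q.L.ι) (d : Fin 2 × Fin 2) (W : (XX k).Opens) (h1 : W ≤ σ ⁻¹ᵁ Q.L.U c)
      (hd : W ≤ UU k d), W ≤ σ ⁻¹ᵁ (π ⁻¹ᵁ UU k d) := by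
    intro c d W h1 hd
    change W ≤ (σ ≫ π) ⁻¹ᵁ UU k d
    rw [hσ]
    exact hd
  refine ⟨⟨fun c d => (hu c d).unit, ?_⟩⟩
  intro c c' d d' W hc hc' hd hd'
  apply Units.ext
  rw [Units.val_mul, Units.val_mul]
  have hcW : W ≤ σ ⁻¹ᵁ Q.L.U c := hc
  have hcW' : W ≤ σ ⁻¹ᵁ Q.L.U c' := hc'
  have hdW : W ≤ UU k d := hd
  have hdW' : W ≤ UU k d' := hd'
  have hπ : W ≤ σ ⁻¹ᵁ (π ⁻¹ᵁ UU k d) := key c d W hcW hdW
  have e1 : Bundles.pull σ (Bundles.le_pre_inf σ hπ hcW) (Q.q d c 0) =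
      Bundles.res (le_inf hcW hdW) (θ c d) * Bundles.res (le_inf hdW hdW) (qv k d d 0) :=
    hθ d c d W (Bundles.le_pre_inf σ hπ hcW) (le_inf hdW hdW) (le_inf hcW hdW) 0
  have e2 : Bundles.pull σ (Bundles.le_pre_inf σ hπ hcW') (Q.q d c' 0) =
      Bundles.res (le_inf hcW' hdW') (θ c' d') * Bundles.res (le_inf hdW hdW') (qv k d d' 0) :=
    hθ d c' d' W (Bundles.le_pre_inf σ hπ hcW') (le_inf hdW hdW') (le_inf hcW' hdW') 0
  have g1 : ((Bundles.resU (le_inf hdW hdW') (u1 k d d') : Γ(XX k, W)ˣ) : Γ(XX k, W)) =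
      Bundles.res hdW (f1 k d d'.1) := u1_coe k d d' W hdW hdW'
  have g2 : Bundles.res (le_inf hcW hdW) (θ c d) * Bundles.res hdW (f1 k d d'.1) =
      Bundles.pull σ (Bundles.le_pre_inf σ hcW hcW') (Q.L.g c c') *
        Bundles.res (le_inf hcW' hdW') (θ c' d') :=
    iso_calc k σ (π ⁻¹ᵁ UU k d) (Q.L.U c) (Q.L.U c') (Q.q d c 0) (Q.q d c' 0) (Q.L.g c c')
      (fun W h0 h1 h2 => q_change k Q d c c' W h0 h1 h2 0) d d' W hcW hcW' hdW hdW' hπ
      (θ c d) (θ c' d') e1 e2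
  refine (congrArg (_ * ·) g1).trans (g2.trans ?_)
  refine congrArg (· * _) ?_
  exact (Bundles.res_pull σ _ _ _).symm

theorem baseLocus [IsAlgClosed k] {P : Scheme.{0}} (π : P ⟶ XX k) (Q : VS.InvQuot (NE k) π)
    (hQ : VS.IsProjectiveBundle Q) (A : VS.LineSheaf P) (hA : A.IsAmple) :
    π '' VS.essentialBaseLocus Q.L A = Set.univ := by
  obtain ⟨σ, h, -⟩ := hQ (XX k) (𝟙 _) (NQ k)
  obtain ⟨φ⟩ := exists_iso k Q σ h
  rw [Set.eq_univ_iff_forall]
  intro x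
  refine ⟨σ x, ?_, ?_⟩
  · intro n hn s i j hmem
    exact no_section k σ π h.1 (oldLine Q.L) (oldLine A) φ (oldAmple A hA) x n
      (oldTwist Q.L A n s) (Opens.mem_iSup.2 ⟨(i, j), hmem⟩)
  · rw [← Scheme.Hom.comp_apply, h.1]
    rfl

end

end Pool.Agent.Helper922.Bridge
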