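import Mathlib

set_option autoImplicit false

open AlgebraicGeometry CategoryTheory

namespace Pool.Agent.Helper922.Bundles

noncomputable section

/-- The ring of regular functions on the open subset `U` of the scheme `X`. -/
abbrev Reg (X : Scheme.{0}) (U : X.Opens) : CommRingCat.{0} := X.presheaf.obj (Opposite.op U)

/-- Restriction of regular functions from `V` to a smaller open set `U`. -/
def res {X : Scheme.{0}} {U V : X.Opens} (h : U ≤ V) : (Reg X (V)) →+* (Reg X (U)) :=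
  (X.presheaf.map (homOfLE h).op).hom

theorem res_res {X : Scheme.{0}} {U V W : X.Opens} (h1 : U ≤ V) (h2 : V ≤ W) (s : (Reg X (W))) :
    res h1 (res h2 s) = res (h1.trans h2) s := by
  unfold res
  rw [← RingHom.comp_apply, ← CommRingCat.hom_comp, ← X.presheaf.map_comp]
  rfl

/-- Restriction of invertible functions. -/
def resU {X : Scheme.{0}} {U V : X.Opens} (h : U ≤ V) : (Reg X (V))ˣ →* (Reg X (U))ˣ :=
  Units.map (res h).toMonoidHom

theorem resU_resU {X : Scheme.{0}} {U V W : X.Opens} (h1 : U ≤ V) (h2 : V ≤ W) (s : (Reg X (W))ˣ) :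
    resU h1 (resU h2 s) = resU (h1.trans h2) s :=
  Units.ext (res_res h1 h2 s.1)

theorem coe_resU {X : Scheme.{0}} {U V : X.Opens} (h : U ≤ V) (s : (Reg X (V))ˣ) :
    (resU h s : (Reg X (U))) = res h (s : (Reg X (V))) := rfl

theorem le_pre_inf {X Y : Scheme.{0}} (f : Y ⟶ X) {U V : X.Opens} {W : Y.Opens}
    (hU : W ≤ f ⁻¹ᵁ U) (hV : W ≤ f ⁻¹ᵁ V) : W ≤ f ⁻¹ᵁ (U ⊓ V) :=
  le_inf hU hV

theorem le_pre_top {X Y : Scheme.{0}} (f : Y ⟶ X) (W : Y.Opens) : W ≤ f ⁻¹ᵁ ⊤ :=
  le_top

theorem le_pre_comp {X Y Z : Scheme.{0}} (f : Y ⟶ X) (σ : Z ⟶ Y) {U : X.Opens} {W : Z.Opens}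
    (h : W ≤ (σ ≫ f) ⁻¹ᵁ U) : W ≤ σ ⁻¹ᵁ (f ⁻¹ᵁ U) :=
  h

/-- Pull-back of regular functions on `U` along a morphism `f`, restricted to an open subset `W`
of the preimage of `U`. -/
def pull {X Y : Scheme.{0}} (f : Y ⟶ X) {U : X.Opens} {W : Y.Opens} (h : W ≤ f ⁻¹ᵁ U) :
    (Reg X (U)) →+* (Reg Y (W)) :=
  (f.appLE U W h).hom

theorem res_pull {X Y : Scheme.{0}} (f : Y ⟶ X) {U : X.Opens} {W W' : Y.Opens}
    (h : W ≤ f ⁻¹ᵁ U) (hW : W' ≤ W) (s : (Reg X (U))) :
    res hW (pull f h s) = pull f (hW.trans h) s := by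
  unfold res pull
  rw [← RingHom.comp_apply, ← CommRingCat.hom_comp, Scheme.Hom.appLE_map]

theorem pull_res {X Y : Scheme.{0}} (f : Y ⟶ X) {U V : X.Opens} {W : Y.Opens}
    (h : W ≤ f ⁻¹ᵁ U) (hU : U ≤ V) (s : (Reg X (V))) :
    pull f h (res hU s) = pull f (h.trans (f.preimage_mono hU)) s := by
  unfold res pull
  rw [← RingHom.comp_apply, ← CommRingCat.hom_comp, Scheme.Hom.map_appLE]

theorem pull_pull {X Y Z : Scheme.{0}} (f : Y ⟶ X) (g : Z ⟶ Y) {U : X.Opens} {V : Y.Opens}
    {W : Z.Opens} (h : V ≤ f ⁻¹ᵁ U) (h' : W ≤ g ⁻¹ᵁ V) (s : (Reg X (U))) :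
    pull g h' (pull f h s) = pull (g ≫ f) (h'.trans (g.preimage_mono h)) s := by
  unfold pull
  rw [← RingHom.comp_apply, ← CommRingCat.hom_comp, Scheme.Hom.appLE_comp_appLE]

theorem mem_basicOpen_pull {X Y : Scheme.{0}} (f : Y ⟶ X) {U : X.Opens} {W : Y.Opens}
    (h : W ≤ f ⁻¹ᵁ U) (s : (Reg X (U))) (y : Y) :
    y ∈ Y.basicOpen (pull f h s) ↔ y ∈ W ∧ f y ∈ X.basicOpen s := by
  unfold pull
  rw [Scheme.basicOpen_appLE]
  rfl

/-- Pull-back of invertible functions. -/
def pullU {X Y : Scheme.{0}} (f : Y ⟶ X) {U : X.Opens} {W : Y.Opens} (h : W ≤ f ⁻¹ᵁ U) :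
    (Reg X (U))ˣ →* (Reg Y (W))ˣ :=
  Units.map (pull f h).toMonoidHom

theorem coe_pullU {X Y : Scheme.{0}} (f : Y ⟶ X) {U : X.Opens} {W : Y.Opens} (h : W ≤ f ⁻¹ᵁ U)
    (s : (Reg X (U))ˣ) : (pullU f h s : (Reg Y (W))) = pull f h (s : (Reg X (U))) := rfl

theorem resU_pullU {X Y : Scheme.{0}} (f : Y ⟶ X) {U : X.Opens} {W W' : Y.Opens}
    (h : W ≤ f ⁻¹ᵁ U) (hW : W' ≤ W) (s : (Reg X (U))ˣ) :
    resU hW (pullU f h s) = pullU f (hW.trans h) s :=
  Units.ext (res_pull f h hW s.1)

theorem pullU_resU {X Y : Scheme.{0}} (f : Y ⟶ X) {U V : X.Opens} {W : Y.Opens}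
    (h : W ≤ f ⁻¹ᵁ U) (hU : U ≤ V) (s : (Reg X (V))ˣ) :
    pullU f h (resU hU s) = pullU f (h.trans (f.preimage_mono hU)) s :=
  Units.ext (pull_res f h hU s.1)

/-! ### Vector sheaves -/

/-- A vector sheaf (locally free sheaf) of rank `r` on `X`, given by transition matrices:
an open cover `U i` and matrices `g i j` in `GL_r` of the functions on `U i ∩ U j` with
`g i j * g j k = g i k` wherever all three are defined. -/
structure VectorSheaf (X : Scheme.{0}) (r : ℕ) where
  ι : Type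
  U : ι → X.Opens
  covers : ∀ x : X, ∃ i, x ∈ U i
  g : ∀ i j, Matrix.GeneralLinearGroup (Fin r) (Reg X (U i ⊓ U j))
  cocycle : ∀ (i j k : ι) (W : X.Opens) (hi : W ≤ U i) (hj : W ≤ U j) (hk : W ≤ U k),
    Matrix.GeneralLinearGroup.map (res (le_inf hi hj)) (g i j) *
      Matrix.GeneralLinearGroup.map (res (le_inf hj hk)) (g j k) =
      Matrix.GeneralLinearGroup.map (res (le_inf hi hk)) (g i k)

/-- A global section of a vector sheaf: coordinate vectors `s i` over `U i` with
`s i = g i j * s j` on overlaps. -/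
structure VectorSheaf.Section {X : Scheme.{0}} {r : ℕ} (E : VectorSheaf X r) where
  s : ∀ i, Fin r → (Reg X (E.U i))
  compat : ∀ (i j : E.ι) (W : X.Opens) (hi : W ≤ E.U i) (hj : W ≤ E.U j) (a : Fin r),
    res hi (s i a) = ∑ b, res (le_inf hi hj) (E.g i j a b) * res hj (s j b)

/-- A section vanishes at the point `x` if all its coordinates vanish at `x`. -/
def VectorSheaf.Section.VanishesAt {X : Scheme.{0}} {r : ℕ} {E : VectorSheaf X r}
    (s : E.Section) (x : X) : Prop :=
  ∀ i, x ∈ E.U i → ∀ a, x ∉ X.basicOpen (s.s i a)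

/-- A section is zero if all its coordinates are zero. -/
def VectorSheaf.Section.IsZero {X : Scheme.{0}} {r : ℕ} {E : VectorSheaf X r}
    (s : E.Section) : Prop :=
  ∀ i a, s.s i a = 0

/-- A global section of the symmetric power `S^n E`: over `U i` it is a homogeneous polynomial of
degree `n` in the frame `e_1, …, e_r` of `E` over `U i`; on overlaps the frames are related by
`e_b^{(j)} = ∑ a, g i j a b * e_a^{(i)}`. -/
structure VectorSheaf.SymSection {X : Scheme.{0}} {r : ℕ} (E : VectorSheaf X r) (n : ℕ) where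
  s : ∀ i, MvPolynomial (Fin r) (Reg X (E.U i))
  homogeneous : ∀ i, (s i).IsHomogeneous n
  compat : ∀ (i j : E.ι) (W : X.Opens) (hi : W ≤ E.U i) (hj : W ≤ E.U j),
    MvPolynomial.map (res hi) (s i) =
      MvPolynomial.eval₂ (MvPolynomial.C.comp (res hj))
        (fun b => ∑ a, MvPolynomial.C (res (le_inf hi hj) (E.g i j a b)) * MvPolynomial.X a) (s j)

/-! ### Line sheaves -/

/-- A line sheaf (invertible sheaf) on `X`, given by transition functions. -/
structure LineSheaf (X : Scheme.{0}) where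
  ι : Type
  U : ι → X.Opens
  covers : ∀ x : X, ∃ i, x ∈ U i
  g : ∀ i j, (Reg X (U i ⊓ U j))ˣ
  cocycle : ∀ (i j k : ι) (W : X.Opens) (hi : W ≤ U i) (hj : W ≤ U j) (hk : W ≤ U k),
    resU (le_inf hi hj) (g i j) * resU (le_inf hj hk) (g j k) = resU (le_inf hi hk) (g i k)

/-- A global section of a line sheaf. -/
structure LineSheaf.Section {X : Scheme.{0}} (L : LineSheaf X) where
  s : ∀ i, (Reg X (L.U i))
  compat : ∀ (i j : L.ι) (W : X.Opens) (hi : W ≤ L.U i) (hj : W ≤ L.U j),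
    res hi (s i) = resU (le_inf hi hj) (L.g i j) * res hj (s j)

/-- The open set where a section of a line sheaf does not vanish. -/
def LineSheaf.Section.nonvanishing {X : Scheme.{0}} {L : LineSheaf X} (s : L.Section) : X.Opens :=
  ⨆ i, X.basicOpen (s.s i)

/-- The `n`-th tensor power of a line sheaf, `n` any integer. -/
def LineSheaf.zpow {X : Scheme.{0}} (L : LineSheaf X) (n : ℤ) : LineSheaf X where
  ι := L.ι
  U := L.U
  covers := L.covers
  g i j := L.g i j ^ n
  cocycle i j k W hi hj hk := by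
    simp only [map_zpow]
    rw [← L.cocycle i j k W hi hj hk, mul_zpow]

/-- The tensor product of two line sheaves. -/
def LineSheaf.tensor {X : Scheme.{0}} (L M : LineSheaf X) : LineSheaf X where
  ι := L.ι × M.ι
  U i := L.U i.1 ⊓ M.U i.2
  covers x := by
    obtain ⟨i, hi⟩ := L.covers x
    obtain ⟨j, hj⟩ := M.covers x
    exact ⟨(i, j), hi, hj⟩
  g i j := resU (inf_le_inf inf_le_left inf_le_left) (L.g i.1 j.1) *
    resU (inf_le_inf inf_le_right inf_le_right) (M.g i.2 j.2)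
  cocycle i j k W hi hj hk := by
    simp only [map_mul, resU_resU]
    rw [← L.cocycle i.1 j.1 k.1 W (hi.trans inf_le_left) (hj.trans inf_le_left)
      (hk.trans inf_le_left), ← M.cocycle i.2 j.2 k.2 W (hi.trans inf_le_right)
      (hj.trans inf_le_right) (hk.trans inf_le_right)]
    exact mul_mul_mul_comm _ _ _ _

/-- The pull-back of a line sheaf along a morphism. -/
def LineSheaf.pullback {X Y : Scheme.{0}} (f : Y ⟶ X) (L : LineSheaf X) : LineSheaf Y where
  ι := L.ι
  U i := f ⁻¹ᵁ L.U i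
  covers y := L.covers (f y)
  g i j := pullU f (le_pre_inf f inf_le_left inf_le_right) (L.g i j)
  cocycle i j k W hi hj hk := by
    have h := L.cocycle i j k (L.U i ⊓ L.U j ⊓ L.U k) (inf_le_left.trans inf_le_left)
      (inf_le_left.trans inf_le_right) inf_le_right
    have hW : W ≤ f ⁻¹ᵁ (L.U i ⊓ L.U j ⊓ L.U k) := le_pre_inf f (le_pre_inf f hi hj) hk
    have h' := congrArg (pullU f hW) h
    simp only [map_mul, pullU_resU] at h'
    simp only [resU_pullU]
    exact h'

/-- An isomorphism of line sheaves, given by its local expressions. -/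
structure LineSheaf.Iso {X : Scheme.{0}} (L M : LineSheaf X) where
  θ : ∀ (c : L.ι) (d : M.ι), (Reg X (L.U c ⊓ M.U d))ˣ
  compat : ∀ (c c' : L.ι) (d d' : M.ι) (W : X.Opens) (hc : W ≤ L.U c) (hc' : W ≤ L.U c')
    (hd : W ≤ M.U d) (hd' : W ≤ M.U d'),
    resU (le_inf hc hd) (θ c d) * resU (le_inf hd hd') (M.g d d') =
      resU (le_inf hc hc') (L.g c c') * resU (le_inf hc' hd') (θ c' d')

/-- A line sheaf `A` on `X` is ample if `X` is quasi-compact and every point of `X` has a
neighbourhood of the form `X_s`, affine, for a section `s` of some positive power of `A`. -/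
def LineSheaf.IsAmple {X : Scheme.{0}} (A : LineSheaf X) : Prop :=
  CompactSpace X ∧ ∀ x : X, ∃ (n : ℕ), 0 < n ∧ ∃ s : (A.zpow n).Section,
    x ∈ s.nonvanishing ∧ IsAffineOpen s.nonvanishing

/-- The essential base locus of a line sheaf `L`, computed with the (ample) line sheaf `A`:
the intersection over `n > 0` of the base loci of `L^n ⊗ A^{-1}`. -/
def essentialBaseLocus {X : Scheme.{0}} (L A : LineSheaf X) : Set X :=
  {x | ∀ n : ℕ, 0 < n → ∀ s : ((L.zpow n).tensor (A.zpow (-1))).Section, x ∉ s.nonvanishing}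

/-! ### The projective bundle `P(E)` -/

/-- An invertible quotient of the pull-back `f^* E`: a line sheaf `L` on `T` with a surjection
`f^* E → L`. In the trivialisations `i` of `E` and `c` of `L` the surjection is the row vector
`q i c`. -/
structure InvQuot {X T : Scheme.{0}} {r : ℕ} (E : VectorSheaf X r) (f : T ⟶ X) where
  L : LineSheaf T
  q : ∀ (i : E.ι) (c : L.ι), Fin r → (Reg T (f ⁻¹ᵁ E.U i ⊓ L.U c))
  compat : ∀ (i j : E.ι) (c d : L.ι) (W : T.Opens) (hi : W ≤ f ⁻¹ᵁ E.U i) (hj : W ≤ f ⁻¹ᵁ E.U j)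
    (hc : W ≤ L.U c) (hd : W ≤ L.U d) (b : Fin r),
    ∑ a, res (le_inf hi hc) (q i c a) *
      pull f (le_pre_inf f hi hj) (E.g i j a b) =
      resU (le_inf hc hd) (L.g c d) * res (le_inf hj hd) (q j d b)
  surjective : ∀ (i : E.ι) (c : L.ι) (t : T), t ∈ f ⁻¹ᵁ E.U i → t ∈ L.U c →
    ∃ a, t ∈ T.basicOpen (q i c a)

/-- Two invertible quotients of `f^* E` are isomorphic if there is an isomorphism of the line
sheaves compatible with the surjections. -/
def InvQuot.IsIso {X T : Scheme.{0}} {r : ℕ} {E : VectorSheaf X r} {f : T ⟶ X}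
    (Q Q' : InvQuot E f) : Prop :=
  ∃ φ : LineSheaf.Iso Q.L Q'.L, ∀ (i : E.ι) (c : Q.L.ι) (d : Q'.L.ι) (W : T.Opens)
    (hi : W ≤ f ⁻¹ᵁ E.U i) (hc : W ≤ Q.L.U c) (hd : W ≤ Q'.L.U d) (a : Fin r),
    res (le_inf hi hc) (Q.q i c a) = resU (le_inf hc hd) (φ.θ c d) * res (le_inf hi hd) (Q'.q i d a)

/-- The pull-back of an invertible quotient of `f^* E` along `σ : S ⟶ T`. -/
def InvQuot.pullback {X T S : Scheme.{0}} {r : ℕ} {E : VectorSheaf X r} {f : T ⟶ X}
    (Q : InvQuot E f) (σ : S ⟶ T) : InvQuot E (σ ≫ f) where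
  L := Q.L.pullback σ
  q i c := fun a => pull σ (le_pre_inf σ (le_pre_comp f σ inf_le_left) inf_le_right) (Q.q i c a)
  compat i j c d W hi hj hc hd b := by
    have h := Q.compat i j c d ((f ⁻¹ᵁ E.U i ⊓ f ⁻¹ᵁ E.U j) ⊓ (Q.L.U c ⊓ Q.L.U d))
      (inf_le_left.trans inf_le_left) (inf_le_left.trans inf_le_right)
      (inf_le_right.trans inf_le_left) (inf_le_right.trans inf_le_right) b
    have hW : W ≤ σ ⁻¹ᵁ ((f ⁻¹ᵁ E.U i ⊓ f ⁻¹ᵁ E.U j) ⊓ (Q.L.U c ⊓ Q.L.U d)) :=
      le_pre_inf σ (le_pre_inf σ (le_pre_comp f σ hi) (le_pre_comp f σ hj)) (le_pre_inf σ hc hd)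
    have h' := congrArg (fun z => pull σ hW z) h
    simp only [map_sum, map_mul, pull_res, pull_pull, coe_resU] at h'
    refine (Finset.sum_congr rfl fun a _ => ?_).trans (h'.trans ?_)
    · exact congrArg₂ (· * ·) (res_pull σ _ _ _) rfl
    · exact congrArg₂ (· * ·) (congrArg Units.val (resU_pullU σ _ _ (Q.L.g c d))).symm
        (res_pull σ _ _ _).symm
  surjective i c t hi hc := by
    obtain ⟨a, ha⟩ := Q.surjective i c (σ t) hi hc
    refine ⟨a, ?_⟩
    exact (mem_basicOpen_pull σ _ _ t).2 ⟨⟨hi, hc⟩, ha⟩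

/-- The morphism `π : P ⟶ X` with the invertible quotient `Q` of `π^* E` is the projective bundle
`P(E)` (with `O(1) = Q.L`): it has the universal property that morphisms `T ⟶ P` over `X` are the
same as isomorphism classes of invertible quotients of the pull-back of `E` to `T`. -/
def IsProjectiveBundle {X P : Scheme.{0}} {r : ℕ} {E : VectorSheaf X r} {π : P ⟶ X}
    (Q : InvQuot E π) : Prop :=
  ∀ (T : Scheme.{0}) (f : T ⟶ X) (Q' : InvQuot E f),
    ∃! σ : T ⟶ P, ∃ h : σ ≫ π = f, InvQuot.IsIso (h ▸ Q.pullback σ) Q'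

/-! ### Varieties over a field, bigness -/

/-- The ring map from the base field `k` to the functions on an open subset of a `k`-scheme. -/
def baseHom {k : Type} [Field k] {X : Scheme.{0}} (p : X ⟶ Spec (CommRingCat.of k))
    (U : X.Opens) : k →+* (Reg X (U)) :=
  (pull p (le_pre_top p U)).comp (Scheme.ΓSpecIso (CommRingCat.of k)).inv.hom

theorem res_baseHom {k : Type} [Field k] {X : Scheme.{0}} (p : X ⟶ Spec (CommRingCat.of k))
    {U V : X.Opens} (h : U ≤ V) : (res h).comp (baseHom p V) = baseHom p U :=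
  RingHom.ext fun x => res_pull p (le_pre_top p V) h ((Scheme.ΓSpecIso (CommRingCat.of k)).inv.hom x)

/-- `p : X ⟶ Spec k` makes `X` a projective variety: `X` is an integral scheme, proper over `k`,
and carries an ample line sheaf. -/
structure IsProjectiveVariety {k : Type} [Field k] {X : Scheme.{0}}
    (p : X ⟶ Spec (CommRingCat.of k)) : Prop where
  integral : IsIntegral X
  proper : IsProper p
  ample : ∃ A : LineSheaf X, A.IsAmple

/-- `h^0(X, S^n E) ≥ m`: there are `m` global sections of `S^n E` that are linearly independent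
over `k`. -/
def SymSectionsAtLeast {k : Type} [Field k] {X : Scheme.{0}} (p : X ⟶ Spec (CommRingCat.of k))
    {r : ℕ} (E : VectorSheaf X r) (n m : ℕ) : Prop :=
  ∃ v : Fin m → E.SymSection n, ∀ c : Fin m → k,
    (∀ i, ∑ l, MvPolynomial.C (baseHom p (E.U i) (c l)) * (v l).s i = 0) → ∀ l, c l = 0

/-- `E` is big: for some `c > 0` one has `h^0(X, S^n E) ≥ c n^(dim X + r - 1)` for all
sufficiently large and divisible `n`. -/
def IsBig {k : Type} [Field k] {X : Scheme.{0}} (p : X ⟶ Spec (CommRingCat.of k))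
    {r : ℕ} (E : VectorSheaf X r) : Prop :=
  ∃ d : ℕ, topologicalKrullDim X = d ∧ ∃ c : ℝ, 0 < c ∧ ∃ n₀ : ℕ, 0 < n₀ ∧
    ∀ n : ℕ, n₀ ≤ n → n₀ ∣ n → ∃ m : ℕ, c * (n : ℝ) ^ (d + r - 1) ≤ m ∧ SymSectionsAtLeast p E n m

/-! ### Representations of `GL_r`, semistability -/

/-- A homomorphism of algebraic groups `GL_r → GL_{r'}` over `k`, given on the functors of points:
for every `k`-algebra `φ : k → A` a homomorphism `GL_r(A) → GL_{r'}(A)`, natural in `A`. -/
structure AlgRep (k : Type) [Field k] (r r' : ℕ) where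
  map : ∀ (A : Type) [CommRing A] (_ : k →+* A),
    Matrix.GeneralLinearGroup (Fin r) A →* Matrix.GeneralLinearGroup (Fin r') A
  natural : ∀ (A B : Type) [CommRing A] [CommRing B] (φ : k →+* A) (f : A →+* B)
    (x : Matrix.GeneralLinearGroup (Fin r) A),
    Matrix.GeneralLinearGroup.map f (map A φ x) =
      map B (f.comp φ) (Matrix.GeneralLinearGroup.map f x)

/-- The representation factors through `PGL_r`: it is trivial on scalar matrices. -/
def AlgRep.FactorsThroughPGL {k : Type} [Field k] {r r' : ℕ} (ρ : AlgRep k r r') : Prop :=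
  ∀ (A : Type) [CommRing A] (φ : k →+* A) (u : Aˣ),
    ρ.map A φ (Matrix.GeneralLinearGroup.scalar (Fin r) u) = 1

/-- The vector sheaf `E^(ρ)` obtained by applying `ρ` to the transition matrices of `E`. -/
def VectorSheaf.assoc {k : Type} [Field k] {X : Scheme.{0}} (p : X ⟶ Spec (CommRingCat.of k))
    {r r' : ℕ} (E : VectorSheaf X r) (ρ : AlgRep k r r') : VectorSheaf X r' where
  ι := E.ι
  U := E.U
  covers := E.covers
  g i j := ρ.map (Reg X (E.U i ⊓ E.U j)) (baseHom p _) (E.g i j)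
  cocycle i j k W hi hj hk := by
    rw [ρ.natural, ρ.natural, ρ.natural, res_baseHom, res_baseHom, res_baseHom, ← map_mul,
      E.cocycle i j k W hi hj hk]

/-- `E` is semistable in the sense of Bogomolov: for no representation `ρ` factoring through
`PGL_r` does `E^(ρ)` have a nonzero global section vanishing at some point. -/
def IsSemistable {k : Type} [Field k] {X : Scheme.{0}} (p : X ⟶ Spec (CommRingCat.of k))
    {r : ℕ} (E : VectorSheaf X r) : Prop :=
  ∀ (r' : ℕ) (ρ : AlgRep k r r'), ρ.FactorsThroughPGL →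
    ∀ s : (E.assoc p ρ).Section, (∃ x, s.VanishesAt x) → s.IsZero

end

end Pool.Agent.Helper922.Bundles
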