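import Pool.Agent.Helper922.PP

set_option autoImplicit false

open AlgebraicGeometry CategoryTheory Limits TopologicalSpace

namespace Pool.Agent.Helper922.Glue

open Bundles P1 PP

noncomputable section

theorem glue {X : Scheme.{0}} {ι : Type} (U : ι → X.Opens) (hU : ∀ x : X, ∃ i, x ∈ U i)
    (s : ∀ i, Γ(X, U i))
    (h : ∀ i j (W : X.Opens) (hi : W ≤ U i) (hj : W ≤ U j), res hi (s i) = res hj (s j)) :
    ∃ t : Γ(X, ⊤), ∀ i, res le_top t = s i := by
  have hc : TopCat.Presheaf.IsCompatible X.sheaf.obj U s := by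
    intro i j
    exact h i j (U i ⊓ U j) inf_le_left inf_le_right
  obtain ⟨t, ht, -⟩ := X.sheaf.existsUnique_gluing' U ⊤ (fun i => homOfLE le_top) (by
    intro x _
    obtain ⟨i, hi⟩ := hU x
    exact Opens.mem_iSup.2 ⟨i, hi⟩) s hc
  exact ⟨t, ht⟩

theorem ext_cover {X : Scheme.{0}} {ι : Type} (U : ι → X.Opens) {V : X.Opens} (hUV : ∀ i, U i ≤ V)
    (hU : ∀ x ∈ V, ∃ i, x ∈ U i) (s t : Γ(X, V)) (h : ∀ i, res (hUV i) s = res (hUV i) t) :
    s = t :=
  X.sheaf.eq_of_locally_eq' U V (fun i => homOfLE (hUV i)) (by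
    intro x hx
    obtain ⟨i, hi⟩ := hU x hx
    exact Opens.mem_iSup.2 ⟨i, hi⟩) s t h

variable (k : Type) [Field k]

theorem isField_PL : IsField Γ(PL k, ⊤) := isField_of_universallyClosed k (strP k)
theorem isField_XX : IsField Γ(XX k, ⊤) := isField_of_universallyClosed k (strX k)

/-- `H^0(P^1, O(-n)) = 0` for `n > 0`. -/
theorem neg_sections (n : ℕ) (hn : 0 < n) (h : ∀ j, Γ(PL k, VV k j))
    (hc : ∀ i j (W : (PL k).Opens) (hi : W ≤ VV k i) (hj : W ≤ VV k j),
      res hi (h i) * res hi (fr k i j) ^ n = res hj (h j)) : ∀ j, h j = 0 := by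
  have key : ∀ l : Fin 2, ∃ t : Γ(PL k, ⊤), ∀ i, res le_top t = h i * fr k i l ^ n := by
    intro l
    refine glue (fun i => VV k i) (cover k) (fun i => h i * fr k i l ^ n) ?_
    intro i j W hi hj
    rw [map_mul, map_mul, map_pow, map_pow, ← hc i j W hi hj, mul_assoc, ← mul_pow, fr_rel]
  intro j
  obtain ⟨t, ht⟩ := key j
  have h1 := ht j
  rw [fr_self, one_pow, mul_one] at h1
  have ht0 : t = 0 := by
    by_contra hne
    have hu : IsUnit t := by
      letI := (isField_PL k).toField
      exact IsUnit.mk0 t hne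
    have h2 := hu.map (res (le_top : VV k (other j) ≤ ⊤))
    rw [ht (other j)] at h2
    have h3 := isUnit_of_mul_isUnit_right h2
    have h4 := (isUnit_pow_iff hn.ne').1 h3
    have : j = other (other j) := by fin_cases j <;> simp [other]
    rw [this] at h4
    have h5 : other (other (other j)) = other j := by rw [← this]
    rw [h5] at h4
    rw [← this] at h4
    apply fr_not_unit k (other j)
    rw [← this]
    exact h4
  rw [← h1, ht0, map_zero]

end

end Pool.Agent.Helper922.Glue
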