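import Pool.Agent.Helper922.BundleDefs

set_option autoImplicit false

open AlgebraicGeometry CategoryTheory MvPolynomial HomogeneousLocalization

namespace Pool.Agent.Helper922.P1

open Bundles

noncomputable section

theorem ι_appLE {Y : Scheme.{0}} (V : Y.Opens) (h : ⊤ ≤ V.ι ⁻¹ᵁ V) :
    V.ι.appLE V ⊤ h = V.topIso.inv := by
  simp [Scheme.Hom.appLE]
  exact (Y.presheaf.map_comp _ _).symm

theorem appLE_top_top {Y Z : Scheme.{0}} (g : Z ⟶ Y) (h : ⊤ ≤ g ⁻¹ᵁ ⊤) : g.appLE ⊤ ⊤ h = g.appTop := by
  exact Scheme.Hom.appLE_eq_app g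

theorem pull_comp_ι {Y Z : Scheme.{0}} (V : Y.Opens) (g : Z ⟶ V.toScheme)
    (h : ⊤ ≤ (g ≫ V.ι) ⁻¹ᵁ V) : (g ≫ V.ι).appLE V ⊤ h = V.topIso.inv ≫ g.appTop := by
  have h1 : (⊤ : V.toScheme.Opens) ≤ V.ι ⁻¹ᵁ V := by simp
  have h2 : (⊤ : Z.Opens) ≤ g ⁻¹ᵁ ⊤ := le_top
  rw [← Scheme.Hom.appLE_comp_appLE g V.ι V ⊤ ⊤ h1 h2, ι_appLE, appLE_top_top]


variable (k : Type) [Field k]

attribute [local instance] MvPolynomial.gradedAlgebra

abbrev AA : ℕ → Submodule k (MvPolynomial (Fin 2) k) := MvPolynomial.homogeneousSubmodule (Fin 2) k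

theorem X_mem (i : Fin 2) : (X i : MvPolynomial (Fin 2) k) ∈ AA k 1 := isHomogeneous_X k i

abbrev other (i : Fin 2) : Fin 2 := 1 - i

theorem hom_smul {K : Type*} [CommRing K] (φ : k →+* K) (f : MvPolynomial (Fin 2) k) (n : ℕ)
    (hf : f ∈ AA k n) (c : K) (v : Fin 2 → K) :
    eval₂ φ (fun j => c * v j) f = c ^ n * eval₂ φ v f := by
  rw [MvPolynomial.eval₂_eq', MvPolynomial.eval₂_eq', Finset.mul_sum]
  refine Finset.sum_congr rfl fun m hm => ?_
  have h1 : ∑ j, m j = n := by
    have := (MvPolynomial.mem_homogeneousSubmodule n f).1 hf (MvPolynomial.mem_support_iff.1 hm)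
    rw [← this, Finsupp.weight_apply, Finsupp.sum_fintype _ _ (by simp)]
    simp
  simp only [mul_pow, Finset.prod_mul_distrib, Finset.prod_pow_eq_pow_sum, h1]
  ring

/-- dehomogenisation at `X i = 1` -/
def dehom (i : Fin 2) : MvPolynomial (Fin 2) k →+* Polynomial k :=
  eval₂Hom Polynomial.C (fun j => if j = i then 1 else Polynomial.X)

theorem dehom_X_self (i : Fin 2) : dehom k i (X i) = 1 := by simp [dehom]
theorem dehom_X_other (i : Fin 2) : dehom k i (X (other i)) = Polynomial.X := by
  fin_cases i <;> simp [dehom, other]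

def toPoly (i : Fin 2) : Away (AA k) (X i : MvPolynomial (Fin 2) k) →+* Polynomial k :=
  (IsLocalization.Away.lift (S := Localization.Away (X i : MvPolynomial (Fin 2) k))
    (X i : MvPolynomial (Fin 2) k) (g := dehom k i) (by rw [dehom_X_self]; exact isUnit_one)).comp
    (algebraMap (Away (AA k) (X i : MvPolynomial (Fin 2) k)) (Localization.Away (X i : MvPolynomial (Fin 2) k)))

theorem toPoly_mk (i : Fin 2) (n : ℕ) (f : MvPolynomial (Fin 2) k) (hf : f ∈ AA k (n • 1)) :
    toPoly k i (Away.mk (AA k) (X_mem k i) n f hf) = dehom k i f := by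
  have h0 : algebraMap (Away (AA k) (X i : MvPolynomial (Fin 2) k)) (Localization.Away (X i : MvPolynomial (Fin 2) k)) (Away.mk (AA k) (X_mem k i) n f hf) =
      Localization.mk f (⟨X i ^ n, n, rfl⟩ : Submonoid.powers (X i : MvPolynomial (Fin 2) k)) :=
    Away.val_mk (AA k) n (X_mem k i) f hf
  rw [toPoly, RingHom.comp_apply, h0]
  have h1 : Localization.mk f (⟨X i ^ n, n, rfl⟩ : Submonoid.powers (X i : MvPolynomial (Fin 2) k)) *
     algebraMap (MvPolynomial (Fin 2) k) (Localization.Away (X i : MvPolynomial (Fin 2) k)) (X i ^ n) =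
      algebraMap (MvPolynomial (Fin 2) k) (Localization.Away (X i : MvPolynomial (Fin 2) k)) f := by
    rw [Localization.mk_eq_mk']
    exact IsLocalization.mk'_spec _ f (⟨X i ^ n, n, rfl⟩ : Submonoid.powers (X i : MvPolynomial (Fin 2) k))
  have h2 := congrArg (IsLocalization.Away.lift (S := Localization.Away (X i : MvPolynomial (Fin 2) k))
    (X i : MvPolynomial (Fin 2) k) (g := dehom k i) (by rw [dehom_X_self]; exact isUnit_one)) h1
  rw [map_mul, IsLocalization.Away.lift_eq, IsLocalization.Away.lift_eq, map_pow] at h2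
  have h3 : (dehom k i (X i)) ^ n = 1 := by rw [dehom_X_self, one_pow]
  exact (mul_one _).symm.trans ((congrArg (_ * ·) h3.symm).trans h2)

theorem toPoly_bijective (i : Fin 2) : Function.Bijective (toPoly k i) := by
  constructor
  · rw [injective_iff_map_eq_zero]
    intro z hz
    obtain ⟨n, f, hf, rfl⟩ := Away.mk_surjective (AA k) (X_mem k i) z
    rw [toPoly_mk] at hz
    have hfn : f ∈ AA k n := by simpa using hf
    have hf0 : f = 0 := by
      let K := FractionRing (MvPolynomial (Fin 2) k)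
      have hXi : algebraMap (MvPolynomial (Fin 2) k) K (X i) ≠ 0 := by
        rw [Ne, FaithfulSMul.algebraMap_eq_zero_iff]
        exact X_ne_zero i
      have h1 := hom_smul k ((algebraMap (MvPolynomial (Fin 2) k) K).comp C) f n hfn
        (algebraMap (MvPolynomial (Fin 2) k) K (X i))
        (fun j => if j = i then 1 else algebraMap (MvPolynomial (Fin 2) k) K (X (other i)) / algebraMap (MvPolynomial (Fin 2) k) K (X i))
      have h2 : eval₂ ((algebraMap (MvPolynomial (Fin 2) k) K).comp C) (fun j => (if j = i then 1 else algebraMap (MvPolynomial (Fin 2) k) K (X (other i)) / algebraMap (MvPolynomial (Fin 2) k) K (X i)))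
          f = Polynomial.eval₂ ((algebraMap (MvPolynomial (Fin 2) k) K).comp C)
          (algebraMap (MvPolynomial (Fin 2) k) K (X (other i)) / algebraMap (MvPolynomial (Fin 2) k) K (X i)) (dehom k i f) := by
        rw [dehom, coe_eval₂Hom, ← Polynomial.coe_eval₂RingHom, MvPolynomial.eval₂_comp_left]
        congr 1
        · ext r
          simp
        · ext j
          by_cases h : j = i
          · simp [h]
          · simp [h]
      rw [h2, hz, Polynomial.eval₂_zero, mul_zero] at h1
      have h3 : (fun j : Fin 2 => algebraMap (MvPolynomial (Fin 2) k) K (X i) *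
        (if j = i then 1 else algebraMap (MvPolynomial (Fin 2) k) K (X (other i)) / algebraMap (MvPolynomial (Fin 2) k) K (X i))) =
        fun j => algebraMap (MvPolynomial (Fin 2) k) K (X j) := by
        ext j
        split_ifs with h
        · rw [mul_one, h]
        · rw [mul_div_cancel₀ _ hXi]
          have : j = other i := by fin_cases i <;> fin_cases j <;> simp_all [other]
          rw [this]
      rw [h3] at h1
      have h4 : eval₂ ((algebraMap (MvPolynomial (Fin 2) k) K).comp C) (fun j => algebraMap (MvPolynomial (Fin 2) k) K (X j)) f = algebraMap (MvPolynomial (Fin 2) k) K f := by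
        have := MvPolynomial.eval₂_comp_left (algebraMap (MvPolynomial (Fin 2) k) K) C X f
        rw [MvPolynomial.eval₂_eta] at this
        exact this.symm
      rw [h4] at h1
      exact (FaithfulSMul.algebraMap_eq_zero_iff _ K).1 h1
    subst hf0
    apply HomogeneousLocalization.val_injective
    rw [Away.val_mk]
    simp [Localization.mk_zero]
  · intro p
    induction p using Polynomial.induction_on' with
    | add p q hp hq =>
      obtain ⟨a, rfl⟩ := hp
      obtain ⟨b, rfl⟩ := hq
      exact ⟨a + b, map_add _ _ _⟩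
    | monomial n c =>
      refine ⟨Away.mk (AA k) (X_mem k i) n (C c * X (other i) ^ n) ?_, ?_⟩
      · rw [smul_eq_mul, mul_one, mem_homogeneousSubmodule]
        simpa using (isHomogeneous_C (Fin 2) c).mul ((isHomogeneous_X k (other i)).pow n)
      · rw [toPoly_mk, map_mul, map_pow, dehom_X_other]
        simp [dehom, Polynomial.C_mul_X_pow_eq_monomial]

/-! The projective line. -/

abbrev PL : Scheme.{0} := Proj (AA k)

abbrev VV (i : Fin 2) : (PL k).Opens := Proj.basicOpen (AA k) (X i)

/-- the function X_j / X_i on V_i -/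
def fr (i j : Fin 2) : Γ(PL k, VV k i) :=
  Proj.awayToSection (AA k) (X i) (Away.mk (AA k) (X_mem k i) 1 (X j) (by simpa using X_mem k j))

theorem fr_rel (i j l : Fin 2) (W : (PL k).Opens) (hi : W ≤ VV k i) (hj : W ≤ VV k j) :
    res hi (fr k i j) * res hj (fr k j l) = res hi (fr k i l) := by
  apply Subtype.ext
  funext x
  apply HomogeneousLocalization.val_injective
  have h1 := ProjectiveSpectrum.Proj.awayToSection_apply (AA k) (X i)
    (Away.mk (AA k) (X_mem k i) 1 (X j) (by simpa using X_mem k j)) ⟨x.1, hi x.2⟩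
  have h2 := ProjectiveSpectrum.Proj.awayToSection_apply (AA k) (X j)
    (Away.mk (AA k) (X_mem k j) 1 (X l) (by simpa using X_mem k l)) ⟨x.1, hj x.2⟩
  have h3 := ProjectiveSpectrum.Proj.awayToSection_apply (AA k) (X i)
    (Away.mk (AA k) (X_mem k i) 1 (X l) (by simpa using X_mem k l)) ⟨x.1, hi x.2⟩
  rw [Away.val_mk, Localization.mk_eq_mk', IsLocalization.map_mk'] at h1 h2 h3
  refine Eq.trans (HomogeneousLocalization.val_mul
    (((ProjectiveSpectrum.Proj.awayToSection (AA k) (X i)) (Away.mk (AA k) (X_mem k i) 1 (X j) (by simpa using X_mem k j))).val ⟨x.1, hi x.2⟩)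
    (((ProjectiveSpectrum.Proj.awayToSection (AA k) (X j)) (Away.mk (AA k) (X_mem k j) 1 (X l) (by simpa using X_mem k l))).val ⟨x.1, hj x.2⟩)) ?_
  refine (congrArg₂ (· * ·) h1 h2).trans (Eq.trans ?_ h3.symm)
  simp only
  rw [← IsLocalization.mk'_mul, IsLocalization.mk'_eq_iff_eq]
  simp
  ring_nf

theorem fr_self (i : Fin 2) : fr k i i = 1 := by
  have h : (Away.mk (AA k) (X_mem k i) 1 (X i) (by simpa using X_mem k i)) = 1 := by
    apply HomogeneousLocalization.val_injective
    rw [Away.val_mk, HomogeneousLocalization.val_one, Localization.mk_eq_mk',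
      IsLocalization.mk'_eq_iff_eq_mul]
    simp
  rw [fr, h]
  exact map_one (Proj.awayToSection (AA k) (X i)).hom

def zeroHom : k →+* AA k 0 where
  toFun a := ⟨C a, isHomogeneous_C _ _⟩
  map_one' := Subtype.ext (map_one C)
  map_zero' := Subtype.ext (map_zero C)
  map_add' a b := Subtype.ext (map_add C a b)
  map_mul' a b := Subtype.ext (map_mul C a b)

theorem zeroHom_bij : Function.Bijective (zeroHom k) := by
  constructor
  · intro a b h
    exact C_injective _ _ (congrArg Subtype.val h)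
  · rintro ⟨f, hf⟩
    have h1 : f.totalDegree = 0 := by
      by_cases h0 : f = 0
      · simp [h0]
      · exact ((mem_homogeneousSubmodule _ _).1 hf).totalDegree h0
    rw [totalDegree_eq_zero_iff_eq_C] at h1
    exact ⟨f.coeff 0, Subtype.ext h1.symm⟩

/-- the structure morphism of the projective line -/
def strP : PL k ⟶ Spec (CommRingCat.of k) :=
  Proj.toSpecZero (AA k) ≫ Spec.map (CommRingCat.ofHom (zeroHom k))

instance : Algebra.FiniteType (AA k 0) (MvPolynomial (Fin 2) k) := by
  classical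
  refine ⟨⟨Finset.univ.image X, ?_⟩⟩
  rw [eq_top_iff]
  intro f _
  induction f using MvPolynomial.induction_on with
  | C a => exact Subalgebra.algebraMap_mem _ (zeroHom k a)
  | add p q hp hq => exact add_mem (hp trivial) (hq trivial)
  | mul_X p i hp => exact mul_mem (hp trivial) (Algebra.subset_adjoin (by simp))

instance : IsIso (CommRingCat.ofHom (zeroHom k)) :=
  (ConcreteCategory.isIso_iff_bijective _).2 (zeroHom_bij k)

instance : IsProper (strP k) := by
  unfold strP
  infer_instance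

/-- chart -/
def kap (i : Fin 2) : Spec (CommRingCat.of (Polynomial k)) ⟶ PL k :=
  Spec.map (CommRingCat.ofHom (toPoly k i)) ≫ Proj.awayι (AA k) (X i) (X_mem k i) one_pos

instance (i : Fin 2) : IsIso (CommRingCat.ofHom (toPoly k i)) :=
  (ConcreteCategory.isIso_iff_bijective _).2 (toPoly_bijective k i)

instance (i : Fin 2) : IsOpenImmersion (kap k i) := by
  unfold kap
  infer_instance

theorem kap_range (i : Fin 2) : (kap k i).opensRange = VV k i := by
  unfold kap
  rw [Scheme.Hom.opensRange_comp_of_isIso, Proj.opensRange_awayι]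

theorem kap_str (i : Fin 2) : kap k i ≫ strP k = Spec.map (CommRingCat.ofHom (algebraMap k (Polynomial k))) := by
  unfold kap strP
  rw [Category.assoc, Proj.awayι_toSpecZero_assoc, ← Spec.map_comp, ← Spec.map_comp]
  congr 1
  apply CommRingCat.hom_ext
  apply RingHom.ext
  intro a
  have h1 : algebraMap (Away (AA k) (X i : MvPolynomial (Fin 2) k))
      (Localization.Away (X i : MvPolynomial (Fin 2) k)) (fromZeroRingHom (AA k) _ (zeroHom k a)) =
      algebraMap (MvPolynomial (Fin 2) k) (Localization.Away (X i : MvPolynomial (Fin 2) k)) (C a) := by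
    rw [← Localization.mk_one_eq_algebraMap]
    rfl
  change toPoly k i (fromZeroRingHom (AA k) _ (zeroHom k a)) = Polynomial.C a
  rw [toPoly, RingHom.comp_apply, h1, IsLocalization.Away.lift_eq]
  simp [dehom]

theorem top_le_pre_range {Y Z : Scheme.{0}} (g : Z ⟶ Y) [IsOpenImmersion g] (V : Y.Opens)
    (h : g.opensRange = V) : ⊤ ≤ g ⁻¹ᵁ V := by
  rw [← h]
  intro x _
  exact ⟨x, rfl⟩

theorem awayι_appLE (i : Fin 2)
    (h : ⊤ ≤ Proj.awayι (AA k) (X i) (X_mem k i) one_pos ⁻¹ᵁ VV k i) :
    Proj.awayToSection (AA k) (X i) ≫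
      (Proj.awayι (AA k) (X i) (X_mem k i) one_pos).appLE (VV k i) ⊤ h =
    (Scheme.ΓSpecIso _).inv := by
  have h0 := Proj.basicOpenToSpec_app_top (AA k) (X i : MvPolynomial (Fin 2) k)
  have h1 : Proj.awayToSection (AA k) (X i) ≫ (VV k i).topIso.inv =
      (Scheme.ΓSpecIso (CommRingCat.of (Away (AA k) (X i : MvPolynomial (Fin 2) k)))).inv ≫
      (Proj.basicOpenIsoSpec (AA k) (X i) (X_mem k i) one_pos).hom.appTop := by
    rw [Iso.eq_inv_comp, Proj.basicOpenIsoSpec_hom]
    exact h0.symm
  have h2 : (Proj.awayι (AA k) (X i) (X_mem k i) one_pos).appLE (VV k i) ⊤ h =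
      (VV k i).topIso.inv ≫
        (Proj.basicOpenIsoSpec (AA k) (X i) (X_mem k i) one_pos).inv.appTop :=
    pull_comp_ι (VV k i) (Proj.basicOpenIsoSpec (AA k) (X i) (X_mem k i) one_pos).inv h
  rw [h2, ← Category.assoc, h1, Category.assoc, ← Scheme.Hom.comp_appTop]
  simp

theorem le_kap_pre (i : Fin 2) : ⊤ ≤ kap k i ⁻¹ᵁ VV k i :=
  top_le_pre_range _ _ (kap_range k i)

/-- pulling back X_j/X_i to the chart -/
theorem kap_fr (i j : Fin 2) :
    pull (kap k i) (le_kap_pre k i) (fr k i j) =
      (Scheme.ΓSpecIso (CommRingCat.of (Polynomial k))).inv.hom (dehom k i (X j)) := by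
  have h0 : ⊤ ≤ Proj.awayι (AA k) (X i) (X_mem k i) one_pos ⁻¹ᵁ VV k i :=
    top_le_pre_range _ _ (Proj.opensRange_awayι (AA k) (X i) (X_mem k i) one_pos)
  have h0' : ⊤ ≤ (Spec.map (CommRingCat.ofHom (toPoly k i))) ⁻¹ᵁ ⊤ := le_top
  have h1 : (kap k i).appLE (VV k i) ⊤ (le_kap_pre k i) =
    (Proj.awayι (AA k) (X i) (X_mem k i) one_pos).appLE (VV k i) ⊤ h0 ≫
      (Spec.map (CommRingCat.ofHom (toPoly k i))).appLE ⊤ ⊤ h0' := by
    rw [Scheme.Hom.appLE_comp_appLE]
    rfl
  have h2 := awayι_appLE k i h0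
  unfold pull
  rw [h1, appLE_top_top, fr]
  have h4 := congr(($(h2) ≫ (Spec.map (CommRingCat.ofHom (toPoly k i))).appTop).hom
    (Away.mk (AA k) (X_mem k i) 1 (X j) (by simpa using X_mem k j)))
  have h5 := congr(($(Scheme.ΓSpecIso_inv_naturality (CommRingCat.ofHom (toPoly k i)))).hom
    (Away.mk (AA k) (X_mem k i) 1 (X j) (by simpa using X_mem k j)))
  refine Eq.trans h4 (h5.symm.trans ?_)
  change (Scheme.ΓSpecIso (CommRingCat.of (Polynomial k))).inv.hom (toPoly k i _) = _
  rw [toPoly_mk]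

theorem fr_not_unit (i : Fin 2) : ¬ IsUnit (fr k i (other i)) := by
  intro h
  have h1 := h.map (pull (kap k i) (le_kap_pre k i))
  rw [kap_fr, dehom_X_other] at h1
  have h2 := h1.map (Scheme.ΓSpecIso (CommRingCat.of (Polynomial k))).hom.hom
  rw [← RingHom.comp_apply, ← CommRingCat.hom_comp, Iso.inv_hom_id] at h2
  exact Polynomial.not_isUnit_X h2

theorem cover (x : PL k) : ∃ i : Fin 2, x ∈ VV k i := by
  have h := Proj.iSup_basicOpen_eq_top' (AA k) (fun i : Fin 2 => (X i : MvPolynomial (Fin 2) k))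
    (fun i => ⟨1, X_mem k i⟩) (by
      rw [eq_top_iff]
      intro f _
      induction f using MvPolynomial.induction_on with
      | C a => exact Subalgebra.algebraMap_mem _ (zeroHom k a)
      | add p q hp hq => exact add_mem (hp trivial) (hq trivial)
      | mul_X p i hp => exact mul_mem (hp trivial) (Algebra.subset_adjoin ⟨i, rfl⟩))
  have hx : x ∈ (⊤ : (PL k).Opens) := trivial
  rw [← h] at hx
  simpa using hx

theorem kap_pre (i j : Fin 2) :
    kap k i ⁻¹ᵁ VV k j = PrimeSpectrum.basicOpen (dehom k i (X j)) := by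
  have h := Proj.awayι_preimage_basicOpen (AA k) (X_mem k i) one_pos (X_mem k j) one_pos
  have h1 : kap k i ⁻¹ᵁ VV k j = (Spec.map (CommRingCat.ofHom (toPoly k i))) ⁻¹ᵁ
    (Proj.awayι (AA k) (X i) (X_mem k i) one_pos ⁻¹ᵁ VV k j) := rfl
  rw [h1, h]
  have h2 : (Away.isLocalizationElem (X_mem k i) (X_mem k j)) =
     Away.mk (AA k) (X_mem k i) 1 (X j) (by simpa using X_mem k j) := by
    apply HomogeneousLocalization.val_injective
    rw [Away.val_mk]
    simp
  rw [h2]
  have h3 := toPoly_mk k i 1 (X j) (by simpa using X_mem k j)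
  rw [← h3]
  rfl

theorem isIntegral_of_cover {Y : Scheme.{0}} {ι : Type} [Nonempty ι] (Z : ι → Scheme.{0})
    (j : ∀ a, Z a ⟶ Y) [∀ a, IsOpenImmersion (j a)] [∀ a, IsIntegral (Z a)]
    (hcov : ∀ y : Y, ∃ a z, j a z = y) (hint : ∀ a b, ∃ z : Z a, j a z ∈ (j b).opensRange) :
    IsIntegral Y := by
  have : IrreducibleSpace Y := by
    have hne : Nonempty Y := ⟨j (Classical.arbitrary ι) (Classical.arbitrary _)⟩
    refine { isPreirreducible_univ := ?_, toNonempty := hne }
    intro U V hU hV ⟨u, _, hu⟩ ⟨v, _, hv⟩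
    obtain ⟨a, zu, rfl⟩ := hcov u
    obtain ⟨b, zv, rfl⟩ := hcov v
    obtain ⟨z, hz⟩ := hint a b
    have h1 : (Set.univ ∩ ((j a) ⁻¹' U ∩ (j a) ⁻¹' ((j b).opensRange : Set Y))).Nonempty :=
      PreirreducibleSpace.isPreirreducible_univ _ _ (hU.preimage (j a).continuous)
        ((j b).opensRange.isOpen.preimage (j a).continuous) ⟨zu, trivial, hu⟩ ⟨z, trivial, hz⟩
    obtain ⟨w, -, hw1, ⟨w', hw2⟩⟩ := h1
    have h2 : (Set.univ ∩ ((j b) ⁻¹' U ∩ (j b) ⁻¹' V)).Nonempty :=
      PreirreducibleSpace.isPreirreducible_univ _ _ (hU.preimage (j b).continuous)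
        (hV.preimage (j b).continuous) ⟨w', trivial, by
          change j b w' ∈ U
          rw [hw2]; exact hw1⟩ ⟨zv, trivial, hv⟩
    obtain ⟨t, -, ht1, ht2⟩ := h2
    exact ⟨j b t, trivial, ht1, ht2⟩
  have : ∀ y : Y, _root_.IsReduced (Y.presheaf.stalk y) := by
    intro y
    obtain ⟨a, z, rfl⟩ := hcov y
    exact isReduced_of_injective ((j a).stalkMap z).hom
      (ConcreteCategory.bijective_of_isIso ((j a).stalkMap z)).1
  have : IsReduced Y := isReduced_of_isReduced_stalk Y
  exact isIntegral_of_irreducibleSpace_of_isReduced Y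

theorem dim_le_of_cover {Y : Scheme.{0}} {ι : Type} (Z : ι → Scheme.{0})
    (j : ∀ a, Z a ⟶ Y) [∀ a, IsOpenImmersion (j a)]
    (hcov : ∀ y : Y, ∃ a z, j a z = y) (d : ℕ) (hd : ∀ a, topologicalKrullDim (Z a) ≤ d) :
    topologicalKrullDim Y ≤ d := by
  have key : ∀ (T : Scheme.{0}), topologicalKrullDim T = Order.krullDim T := by
    intro T
    exact Order.krullDim_eq_of_orderIso irreducibleSetEquivPoints
  rw [key]
  cases isEmpty_or_nonempty Y with
  | inl h => simp [Order.krullDim_eq_bot]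
  | inr h =>
    rw [Order.krullDim_eq_iSup_coheight_of_nonempty]
    have : ⨆ y : Y, Order.coheight y ≤ d := by
      refine iSup_le fun y => ?_
      obtain ⟨a, z, rfl⟩ := hcov y
      have h1 : Order.coheight (j a z) = Order.coheight z := coheight_eq_of_isOpenImmersion (j a)
      rw [h1]
      have h2 : (Order.coheight z : WithBot ℕ∞) ≤ Order.krullDim (Z a) := Order.coheight_le_krullDim z
      have h3 := h2.trans ((key (Z a)).symm.le.trans (hd a))
      exact_mod_cast h3
    exact_mod_cast this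

end

end Pool.Agent.Helper922.P1
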