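import Pool.Agent.Helper922.P1

set_option autoImplicit false

open AlgebraicGeometry CategoryTheory Limits MvPolynomial

namespace Pool.Agent.Helper922.PP

open Bundles P1

noncomputable section

variable (k : Type) [Field k]

instance : IsIntegral (PL k) := by
  refine isIntegral_of_cover (ι := Fin 2) (fun _ => Spec (CommRingCat.of (Polynomial k)))
    (fun i => kap k i) ?_ ?_
  · intro y
    obtain ⟨i, hi⟩ := cover k y
    rw [← kap_range k i] at hi
    obtain ⟨z, hz⟩ := hi
    exact ⟨i, z, hz⟩
  · intro a b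
    have h := kap_pre k a b
    have hne : dehom k a (X b) ≠ 0 := by
      fin_cases a <;> fin_cases b <;> simp [dehom]
    have h2 : ∃ z : Spec (CommRingCat.of (Polynomial k)), z ∈ kap k a ⁻¹ᵁ VV k b := by
      rw [h]
      exact ⟨⟨⊥, Ideal.isPrime_bot⟩, by
        change _ ∉ (⊥ : Ideal _)
        simpa using hne⟩
    obtain ⟨z, hz⟩ := h2
    refine ⟨z, ?_⟩
    rw [kap_range]
    exact hz

/-- `P^1 × P^1` -/
abbrev XX : Scheme.{0} := pullback (strP k) (strP k)

abbrev p1 : XX k ⟶ PL k := pullback.fst _ _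
abbrev p2 : XX k ⟶ PL k := pullback.snd _ _

abbrev strX : XX k ⟶ Spec (CommRingCat.of k) := p1 k ≫ strP k

instance : IsProper (strX k) := inferInstance

abbrev R2 : Type := MvPolynomial (Fin 2) k

/-- the affine plane -/
abbrev A2 : Scheme.{0} := Spec (CommRingCat.of (R2 k))

/-- `t ↦ x_a` -/
def co (a : Fin 2) : Polynomial k →+* R2 k := (Polynomial.aeval (X a)).toRingHom

theorem pushco : IsPushout (CommRingCat.ofHom (algebraMap k (Polynomial k)))
    (CommRingCat.ofHom (algebraMap k (Polynomial k))) (CommRingCat.ofHom (co k 0))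
    (CommRingCat.ofHom (co k 1)) := by
  refine ⟨⟨?_⟩, ⟨?_⟩⟩
  · apply CommRingCat.hom_ext
    apply RingHom.ext
    intro r
    simp [co]
  · refine PushoutCocone.IsColimit.mk _
      (fun s => CommRingCat.ofHom (eval₂Hom (s.inl.hom.comp (algebraMap k (Polynomial k)))
        ![s.inl.hom Polynomial.X, s.inr.hom Polynomial.X])) ?_ ?_ ?_
    · intro s
      apply CommRingCat.hom_ext
      apply Polynomial.ringHom_ext
      · intro r
        simp [co]
      · simp [co]
    · intro s
      have hc : ∀ r, s.inl.hom (algebraMap k _ r) = s.inr.hom (algebraMap k _ r) := by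
        intro r
        exact congr($(s.condition).hom r)
      apply CommRingCat.hom_ext
      apply Polynomial.ringHom_ext
      · intro r
        simpa [co] using hc r
      · simp [co]
    · intro s m h1 h2
      apply CommRingCat.hom_ext
      apply MvPolynomial.ringHom_ext
      · intro r
        have := congr($(h1).hom (Polynomial.C r))
        simpa [co] using this
      · intro i
        fin_cases i
        · simpa [co] using congr($(h1).hom Polynomial.X)
        · simpa [co] using congr($(h2).hom Polynomial.X)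

/-- the two projections from the plane -/
abbrev pr (a : Fin 2) : A2 k ⟶ Spec (CommRingCat.of (Polynomial k)) :=
  Spec.map (CommRingCat.ofHom (co k a))

theorem isPullback_pr : IsPullback (pr k 0) (pr k 1)
    (Spec.map (CommRingCat.ofHom (algebraMap k (Polynomial k))))
    (Spec.map (CommRingCat.ofHom (algebraMap k (Polynomial k)))) :=
  isPullback_SpecMap_of_isPushout _ _ _ _ (pushco k)

theorem pr_comm (i j : Fin 2) : (pr k 0 ≫ kap k i) ≫ strP k = (pr k 1 ≫ kap k j) ≫ strP k := by
  rw [Category.assoc, Category.assoc, kap_str, kap_str]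
  exact (isPullback_pr k).w

/-- charts of `P^1 × P^1` -/
def jj (a : Fin 2 × Fin 2) : A2 k ⟶ XX k :=
  pullback.lift (pr k 0 ≫ kap k a.1) (pr k 1 ≫ kap k a.2) (pr_comm k a.1 a.2)

theorem jj_p1 (a : Fin 2 × Fin 2) : jj k a ≫ p1 k = pr k 0 ≫ kap k a.1 := pullback.lift_fst _ _ _
theorem jj_p2 (a : Fin 2 × Fin 2) : jj k a ≫ p2 k = pr k 1 ≫ kap k a.2 := pullback.lift_snd _ _ _

theorem jj_eq (a : Fin 2 × Fin 2) : jj k a = (isPullback_pr k).isoPullback.hom ≫
    pullback.map (Spec.map (CommRingCat.ofHom (algebraMap k (Polynomial k))))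
      (Spec.map (CommRingCat.ofHom (algebraMap k (Polynomial k)))) (strP k) (strP k)
      (kap k a.1) (kap k a.2) (𝟙 _) ((Category.comp_id _).trans (kap_str k a.1).symm)
      ((Category.comp_id _).trans (kap_str k a.2).symm) := by
  apply pullback.hom_ext
  · rw [jj_p1, Category.assoc, pullback.map, pullback.lift_fst, ← Category.assoc,
      IsPullback.isoPullback_hom_fst]
  · rw [jj_p2, Category.assoc, pullback.map, pullback.lift_snd, ← Category.assoc,
      IsPullback.isoPullback_hom_snd]

instance (a : Fin 2 × Fin 2) : IsOpenImmersion (jj k a) := by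
  rw [jj_eq]
  have : IsOpenImmersion (pullback.map (Spec.map (CommRingCat.ofHom (algebraMap k (Polynomial k))))
      (Spec.map (CommRingCat.ofHom (algebraMap k (Polynomial k)))) (strP k) (strP k)
      (kap k a.1) (kap k a.2) (𝟙 _) ((Category.comp_id _).trans (kap_str k a.1).symm)
      ((Category.comp_id _).trans (kap_str k a.2).symm)) :=
    MorphismProperty.pullbackMap (P := @IsOpenImmersion) inferInstance inferInstance
      (kap_str k a.1).symm (kap_str k a.2).symm
  infer_instance

/-- the four standard open sets -/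
abbrev UU (a : Fin 2 × Fin 2) : (XX k).Opens := p1 k ⁻¹ᵁ VV k a.1 ⊓ p2 k ⁻¹ᵁ VV k a.2

theorem jj_range (a : Fin 2 × Fin 2) : (jj k a).opensRange = UU k a := by
  apply TopologicalSpace.Opens.ext
  have h0 : ((jj k a).opensRange : Set (XX k)) = Set.range (jj k a) := rfl
  rw [h0, jj_eq, Scheme.Hom.comp_base, TopCat.coe_comp, Set.range_comp]
  have hs : Set.range ((isPullback_pr k).isoPullback.hom) = Set.univ :=
    (isPullback_pr k).isoPullback.hom.homeomorph.surjective.range_eq
  have h1 : Set.range (kap k a.1) = (VV k a.1 : Set (PL k)) := by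
    rw [← kap_range]; rfl
  have h2 : Set.range (kap k a.2) = (VV k a.2 : Set (PL k)) := by
    rw [← kap_range]; rfl
  refine Eq.trans (congrArg _ hs) ?_
  rw [Set.image_univ]
  refine (Scheme.Pullback.range_map _ _ _ _ _ _ _ _ _).trans ?_
  rw [h1, h2]
  rfl

theorem UU_cover (x : XX k) : ∃ a, x ∈ UU k a := by
  obtain ⟨i, hi⟩ := cover k (p1 k x)
  obtain ⟨j, hj⟩ := cover k (p2 k x)
  exact ⟨(i, j), hi, hj⟩

theorem jj_cover (x : XX k) : ∃ a z, jj k a z = x := by
  obtain ⟨a, ha⟩ := UU_cover k x
  rw [← jj_range] at ha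
  obtain ⟨z, hz⟩ := ha
  exact ⟨a, z, hz⟩

instance : IsIntegral (XX k) := by
  refine isIntegral_of_cover (ι := Fin 2 × Fin 2) (fun _ => A2 k) (fun a => jj k a) (jj_cover k) ?_
  intro a b
  let z : A2 k := ⟨⊥, Ideal.isPrime_bot⟩
  refine ⟨z, ?_⟩
  rw [jj_range]
  have hne : ∀ i j : Fin 2, dehom k i (X j) ≠ 0 := by
    intro i j
    fin_cases i <;> fin_cases j <;> simp [dehom]
  have hco : ∀ a, Function.Injective (co k a) := by
    intro a
    exact transcendental_iff_injective.1 (MvPolynomial.transcendental_X k a)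
  have hz : ∀ (c i j : Fin 2), kap k i (pr k c z) ∈ VV k j := by
    intro c i j
    have h1 : pr k c z ∈ kap k i ⁻¹ᵁ VV k j := by
      rw [kap_pre]
      change co k c (dehom k i (X j)) ∉ (⊥ : Ideal _)
      rw [Ideal.mem_bot, map_eq_zero_iff _ (hco c)]
      exact hne i j
    exact h1
  constructor
  · change p1 k (jj k a z) ∈ VV k b.1
    rw [← Scheme.Hom.comp_apply, jj_p1]
    exact hz 0 a.1 b.1
  · change p2 k (jj k a z) ∈ VV k b.2
    rw [← Scheme.Hom.comp_apply, jj_p2]
    exact hz 1 a.2 b.2

theorem dim_le : topologicalKrullDim (XX k) ≤ (2 : ℕ) := by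
  refine dim_le_of_cover (ι := Fin 2 × Fin 2) (fun _ => A2 k) (fun a => jj k a) (jj_cover k) 2 ?_
  intro a
  have h := PrimeSpectrum.topologicalKrullDim_eq_ringKrullDim (R := R2 k)
  have h2 := MvPolynomial.ringKrullDim_of_isNoetherianRing (R := k) (ι := Fin 2)
  have h3 : ringKrullDim k = 0 := ringKrullDim_eq_zero_of_field k
  rw [h3, zero_add, Nat.card_eq_fintype_card, Fintype.card_fin] at h2
  exact (h.trans h2).le

end

end Pool.Agent.Helper922.PP
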