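import Pool.Agent.Helper922.Semi

set_option autoImplicit false

open AlgebraicGeometry CategoryTheory Limits TopologicalSpace LaurentPolynomial

namespace Pool.Agent.Helper922.Rep

open Bundles P1 PP Glue Secs Semi

noncomputable section

theorem eval₂_sum {R S : Type} [CommRing R] [CommRing S] (φ : R →+* S) (v : Sˣ) (f : R[T;T⁻¹])
    (s : Finset ℤ) (hs : f.coeff.support ⊆ s) :
    LaurentPolynomial.eval₂ φ v f = ∑ m ∈ s, φ (f.coeff m) * ((v ^ m : Sˣ) : S) := by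
  conv_lhs => rw [← AddMonoidAlgebra.sum_coeff_single f]
  rw [Finsupp.sum_of_support_subset _ hs _ (by simp), map_sum]
  refine Finset.sum_congr rfl fun m _ => ?_
  rw [single_eq_C_mul_T, eval₂_C_mul_T]

theorem coeff_mul_C {R : Type} [CommRing R] (f : R[T;T⁻¹]) (r : R) (m : ℤ) :
    (f * C r).coeff m = f.coeff m * r := by
  rw [mul_comm, ← smul_eq_C_mul]
  simp [mul_comm]

theorem coeff_C_mul_T' {R : Type} [CommRing R] (r : R) (n m : ℤ) :
    (C r * T n : R[T;T⁻¹]).coeff m = if n = m then r else 0 := by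
  rw [← single_eq_C_mul_T, AddMonoidAlgebra.coeff_single, Finsupp.single_apply]

def unitT (R : Type) [CommRing R] : R[T;T⁻¹]ˣ where
  val := T 1
  inv := T (-1)
  val_inv := by rw [← T_add]; rfl
  inv_val := by rw [← T_add]; rfl

theorem unitT_zpow (R : Type) [CommRing R] (n : ℤ) : ((unitT R ^ n : R[T;T⁻¹]ˣ) : R[T;T⁻¹]) = T n := by
  have h1 : ∀ m : ℕ, ((unitT R ^ m : R[T;T⁻¹]ˣ) : R[T;T⁻¹]) = T m := by
    intro m
    rw [Units.val_pow_eq_pow_val]
    change T 1 ^ m = _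
    rw [T_pow, mul_one]
  have h2 : ∀ m : ℕ, (((unitT R)⁻¹ ^ m : R[T;T⁻¹]ˣ) : R[T;T⁻¹]) = T (-m) := by
    intro m
    rw [Units.val_pow_eq_pow_val]
    change T (-1) ^ m = _
    rw [T_pow, mul_neg, mul_one]
  rcases Int.eq_nat_or_neg n with ⟨m, rfl | rfl⟩
  · rw [zpow_natCast, h1]
  · rw [zpow_neg, zpow_natCast, ← inv_pow, h2]

theorem coeff_eval₂ {k A : Type} [Field k] [CommRing A] (φ : k →+* A) (v : Aˣ) (f : k[T;T⁻¹])
    (m : ℤ) : (LaurentPolynomial.eval₂ ((C : A →+* A[T;T⁻¹]).comp φ)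
      (unitT A * Units.map (C : A →+* A[T;T⁻¹]).toMonoidHom v) f).coeff m =
      φ (f.coeff m) * ((v ^ m : Aˣ) : A) := by
  induction f using LaurentPolynomial.induction_on' with
  | add p q hp hq =>
    rw [map_add, AddMonoidAlgebra.coeff_add, Finsupp.add_apply, hp, hq,
      AddMonoidAlgebra.coeff_add, Finsupp.add_apply, map_add, add_mul]
  | C_mul_T n a =>
    rw [eval₂_C_mul_T, mul_zpow, Units.val_mul, unitT_zpow, ← map_zpow, coeff_C_mul_T']
    have h : ((Units.map (C : A →+* A[T;T⁻¹]).toMonoidHom (v ^ n) : A[T;T⁻¹]ˣ) : A[T;T⁻¹]) =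
      C ((v ^ n : Aˣ) : A) := rfl
    rw [h, ← mul_assoc, coeff_mul_C, RingHom.comp_apply, coeff_C_mul_T']
    split_ifs with h1
    · rw [h1]
    · rw [map_zero]
      ring

theorem coeff_eval₂' {k A : Type} [Field k] [CommRing A] (φ : k →+* A) (f : k[T;T⁻¹])
    (m : ℤ) : (LaurentPolynomial.eval₂ ((C : A →+* A[T;T⁻¹]).comp φ)
      (unitT A) f).coeff m = φ (f.coeff m) := by
  have h := coeff_eval₂ φ (1 : Aˣ) f m
  rw [map_one, mul_one, one_zpow, Units.val_one, mul_one] at h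
  exact h

variable {k : Type} [Field k] {r' : ℕ} (ρ : AlgRep k 2 r')

/-- the universal matrix `ρ(diag(T,1))` -/
def MM : Matrix.GeneralLinearGroup (Fin r') k[T;T⁻¹] :=
  ρ.map k[T;T⁻¹] C (dg (unitT k) 1)

/-- its coefficient matrices (weight projectors) -/
def PPm (m : ℤ) (α β : Fin r') : k := (MM ρ α β).coeff m

theorem rho_eq {A : Type} [CommRing A] (φ : k →+* A) (v : Aˣ) :
    ρ.map A φ (dg v 1) = Matrix.GeneralLinearGroup.map (LaurentPolynomial.eval₂ φ v) (MM ρ) := by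
  have h : (LaurentPolynomial.eval₂ φ v).comp C = φ := RingHom.ext fun x => eval₂_C φ v x
  have h2 : Units.map (LaurentPolynomial.eval₂ φ v).toMonoidHom (unitT k) = v := by
    apply Units.ext
    change LaurentPolynomial.eval₂ φ v (T 1) = _
    rw [eval₂_T, zpow_one]
  rw [MM, ρ.natural, map_dg, h, h2, map_one]

theorem rho_apply {A : Type} [CommRing A] (φ : k →+* A) (v : Aˣ) (α β : Fin r') :
    (ρ.map A φ (dg v 1)) α β = LaurentPolynomial.eval₂ φ v (MM ρ α β) := by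
  rw [rho_eq]
  rfl

theorem weight {A : Type} [CommRing A] (φ : k →+* A) (v : Aˣ) (m : ℤ) (α γ : Fin r') :
    ∑ β, φ (PPm ρ m α β) * (ρ.map A φ (dg v 1)) β γ = ((v ^ m : Aˣ) : A) * φ (PPm ρ m α γ) := by
  have h1 : ρ.map A[T;T⁻¹] (C.comp φ) (dg (unitT A) 1) *
      ρ.map A[T;T⁻¹] (C.comp φ) (dg (Units.map (C : A →+* A[T;T⁻¹]).toMonoidHom v) 1) =
      ρ.map A[T;T⁻¹] (C.comp φ) (dg (unitT A * Units.map (C : A →+* A[T;T⁻¹]).toMonoidHom v) 1) := by
    rw [← map_mul, dg_mul, mul_one]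
  have h2 : ρ.map A[T;T⁻¹] (C.comp φ) (dg (Units.map (C : A →+* A[T;T⁻¹]).toMonoidHom v) 1) =
      Matrix.GeneralLinearGroup.map C (ρ.map A φ (dg v 1)) := by
    rw [ρ.natural, map_dg, map_one]
  rw [h2] at h1
  have h3 := congrArg (fun M : Matrix.GeneralLinearGroup (Fin r') A[T;T⁻¹] =>
    ((M : Matrix (Fin r') (Fin r') A[T;T⁻¹]) α γ).coeff m) h1
  simp only [Units.val_mul, Matrix.mul_apply] at h3
  rw [AddMonoidAlgebra.coeff_sum, Finsupp.finsetSum_apply] at h3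
  have h4 : ∀ β, (ρ.map A[T;T⁻¹] (C.comp φ) (dg (unitT A) 1) : Matrix (Fin r') (Fin r') A[T;T⁻¹]) α β =
      LaurentPolynomial.eval₂ (C.comp φ) (unitT A) (MM ρ α β) := fun β => rho_apply ρ _ _ α β
  have h5 : (ρ.map A[T;T⁻¹] (C.comp φ) (dg (unitT A * Units.map (C : A →+* A[T;T⁻¹]).toMonoidHom v) 1) : Matrix (Fin r') (Fin r') A[T;T⁻¹]) α γ =
      LaurentPolynomial.eval₂ (C.comp φ) (unitT A * Units.map (C : A →+* A[T;T⁻¹]).toMonoidHom v) (MM ρ α γ) := rho_apply ρ _ _ α γ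
  rw [h5, coeff_eval₂] at h3
  have h6 : ∀ β, ((Matrix.GeneralLinearGroup.map C (ρ.map A φ (dg v 1)) : Matrix (Fin r') (Fin r') A[T;T⁻¹])) β γ =
    C ((ρ.map A φ (dg v 1)) β γ) := fun β => rfl
  simp only [h4, h6, coeff_mul_C, coeff_eval₂'] at h3
  rw [mul_comm ((v ^ m : Aˣ) : A)]
  exact h3

/-- a finite set of weights -/
def SS : Finset ℤ := insert 0 (Finset.univ.biUnion fun α : Fin r' => Finset.univ.biUnion fun β : Fin r' =>
  (MM ρ α β).coeff.support)

theorem sum_weights {A : Type} [CommRing A] (φ : k →+* A) (α β : Fin r') :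
    ∑ m ∈ SS ρ, φ (PPm ρ m α β) = (1 : Matrix (Fin r') (Fin r') A) α β := by
  have h1 : ρ.map A φ (dg 1 1) = 1 := by rw [dg_one, map_one]
  have h2 := rho_apply ρ φ 1 α β
  rw [h1, eval₂_sum φ 1 _ (SS ρ)] at h2
  · simp only [one_zpow, Units.val_one, mul_one] at h2
    exact h2.symm
  · intro m hm
    refine Finset.mem_insert_of_mem ?_
    rw [Finset.mem_biUnion]
    refine ⟨α, Finset.mem_univ _, ?_⟩
    rw [Finset.mem_biUnion]
    exact ⟨β, Finset.mem_univ _, hm⟩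

end

end Pool.Agent.Helper922.Rep
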