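import Pool.Agent.Helper922.Glue

set_option autoImplicit false

open AlgebraicGeometry CategoryTheory Limits TopologicalSpace

namespace Pool.Agent.Helper922.Secs

open Bundles P1 PP Glue

noncomputable section

/-! diagonal matrices -/

def dg {R : Type} [CommRing R] (u v : Rˣ) : Matrix.GeneralLinearGroup (Fin 2) R where
  val := !![(u : R), 0; 0, (v : R)]
  inv := !![((u⁻¹ : Rˣ) : R), 0; 0, ((v⁻¹ : Rˣ) : R)]
  val_inv := by
    ext i j
    fin_cases i <;> fin_cases j <;> simp [Matrix.mul_apply]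
  inv_val := by
    ext i j
    fin_cases i <;> fin_cases j <;> simp [Matrix.mul_apply]

theorem dg_mul {R : Type} [CommRing R] (u v u' v' : Rˣ) : dg u v * dg u' v' = dg (u * u') (v * v') := by
  apply Units.ext
  ext i j
  fin_cases i <;> fin_cases j <;> simp [dg, Matrix.mul_apply]

theorem map_dg {R S : Type} [CommRing R] [CommRing S] (f : R →+* S) (u v : Rˣ) :
    Matrix.GeneralLinearGroup.map f (dg u v) = dg (Units.map f.toMonoidHom u) (Units.map f.toMonoidHom v) := by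
  apply Units.ext
  ext i j
  fin_cases i <;> fin_cases j <;> simp [dg]

theorem dg_scalar {R : Type} [CommRing R] (u : Rˣ) :
    dg u u = Matrix.GeneralLinearGroup.scalar (Fin 2) u := by
  apply Units.ext
  ext i j
  fin_cases i <;> fin_cases j <;> simp [dg]

theorem dg_one {R : Type} [CommRing R] : dg (1 : Rˣ) 1 = 1 := by
  apply Units.ext
  ext i j
  fin_cases i <;> fin_cases j <;> simp [dg]

variable (k : Type) [Field k]

def f1 (a : Fin 2 × Fin 2) (j : Fin 2) : Γ(XX k, UU k a) := pull (p1 k) inf_le_left (fr k a.1 j)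
def f2 (a : Fin 2 × Fin 2) (j : Fin 2) : Γ(XX k, UU k a) := pull (p2 k) inf_le_right (fr k a.2 j)

theorem pull_fr_rel {Y : Scheme.{0}} (g : Y ⟶ PL k) (i j l : Fin 2) (W : Y.Opens)
    (hi : W ≤ g ⁻¹ᵁ VV k i) (hj : W ≤ g ⁻¹ᵁ VV k j) :
    pull g hi (fr k i j) * pull g hj (fr k j l) = pull g hi (fr k i l) := by
  have hW : W ≤ g ⁻¹ᵁ (VV k i ⊓ VV k j) := le_pre_inf g hi hj
  have h := congrArg (pull g hW) (fr_rel k i j l (VV k i ⊓ VV k j) inf_le_left inf_le_right)
  rw [map_mul, pull_res, pull_res, pull_res] at h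
  exact h

theorem f1_rel (a b : Fin 2 × Fin 2) (l : Fin 2) (W : (XX k).Opens) (ha : W ≤ UU k a)
    (hb : W ≤ UU k b) : res ha (f1 k a b.1) * res hb (f1 k b l) = res ha (f1 k a l) := by
  unfold f1
  rw [res_pull, res_pull, res_pull]
  exact pull_fr_rel k _ _ _ _ _ _ _

theorem f2_rel (a b : Fin 2 × Fin 2) (l : Fin 2) (W : (XX k).Opens) (ha : W ≤ UU k a)
    (hb : W ≤ UU k b) : res ha (f2 k a b.2) * res hb (f2 k b l) = res ha (f2 k a l) := by
  unfold f2
  rw [res_pull, res_pull, res_pull]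
  exact pull_fr_rel k _ _ _ _ _ _ _

theorem f1_self (a : Fin 2 × Fin 2) : f1 k a a.1 = 1 := by
  unfold f1
  rw [fr_self, map_one]

theorem f2_self (a : Fin 2 × Fin 2) : f2 k a a.2 = 1 := by
  unfold f2
  rw [fr_self, map_one]

def u1 (a b : Fin 2 × Fin 2) : Γ(XX k, UU k a ⊓ UU k b)ˣ where
  val := res inf_le_left (f1 k a b.1)
  inv := res inf_le_right (f1 k b a.1)
  val_inv := by rw [f1_rel, f1_self, map_one]
  inv_val := by rw [f1_rel, f1_self, map_one]

def u2 (a b : Fin 2 × Fin 2) : Γ(XX k, UU k a ⊓ UU k b)ˣ where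
  val := res inf_le_left (f2 k a b.2)
  inv := res inf_le_right (f2 k b a.2)
  val_inv := by rw [f2_rel, f2_self, map_one]
  inv_val := by rw [f2_rel, f2_self, map_one]

theorem u1_coe (a b : Fin 2 × Fin 2) (W : (XX k).Opens) (ha : W ≤ UU k a) (hb : W ≤ UU k b) :
    (resU (le_inf ha hb) (u1 k a b) : Γ(XX k, W)) = res ha (f1 k a b.1) := by
  rw [coe_resU]
  exact res_res _ _ _

theorem u2_coe (a b : Fin 2 × Fin 2) (W : (XX k).Opens) (ha : W ≤ UU k a) (hb : W ≤ UU k b) :
    (resU (le_inf ha hb) (u2 k a b) : Γ(XX k, W)) = res ha (f2 k a b.2) := by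
  rw [coe_resU]
  exact res_res _ _ _

theorem u1_coe' (a b : Fin 2 × Fin 2) (W : (XX k).Opens) (ha : W ≤ UU k a) (hb : W ≤ UU k b) :
    (((resU (le_inf ha hb) (u1 k a b))⁻¹ : Γ(XX k, W)ˣ) : Γ(XX k, W)) = res hb (f1 k b a.1) := by
  rw [← map_inv, coe_resU]
  exact res_res _ _ _

theorem u2_coe' (a b : Fin 2 × Fin 2) (W : (XX k).Opens) (ha : W ≤ UU k a) (hb : W ≤ UU k b) :
    (((resU (le_inf ha hb) (u2 k a b))⁻¹ : Γ(XX k, W)ˣ) : Γ(XX k, W)) = res hb (f2 k b a.2) := by
  rw [← map_inv, coe_resU]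
  exact res_res _ _ _

theorem u1_cocycle (a b c : Fin 2 × Fin 2) (W : (XX k).Opens) (ha : W ≤ UU k a) (hb : W ≤ UU k b)
    (hc : W ≤ UU k c) : resU (le_inf ha hb) (u1 k a b) * resU (le_inf hb hc) (u1 k b c) =
    resU (le_inf ha hc) (u1 k a c) := by
  apply Units.ext
  rw [Units.val_mul, u1_coe k a b W ha hb, u1_coe k b c W hb hc, u1_coe k a c W ha hc, f1_rel]

theorem u2_cocycle (a b c : Fin 2 × Fin 2) (W : (XX k).Opens) (ha : W ≤ UU k a) (hb : W ≤ UU k b)
    (hc : W ≤ UU k c) : resU (le_inf ha hb) (u2 k a b) * resU (le_inf hb hc) (u2 k b c) =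
    resU (le_inf ha hc) (u2 k a c) := by
  apply Units.ext
  rw [Units.val_mul, u2_coe k a b W ha hb, u2_coe k b c W hb hc, u2_coe k a c W ha hc, f2_rel]

/-- `O(1,0)` -/
def L10 : LineSheaf (XX k) where
  ι := Fin 2 × Fin 2
  U := UU k
  covers := UU_cover k
  g := u1 k
  cocycle := u1_cocycle k

/-- `O(1,1)` -/
def L11 : LineSheaf (XX k) where
  ι := Fin 2 × Fin 2
  U := UU k
  covers := UU_cover k
  g a b := u1 k a b * u2 k a b
  cocycle a b c W ha hb hc := by
    rw [map_mul, map_mul, map_mul, ← u1_cocycle k a b c W ha hb hc, ← u2_cocycle k a b c W ha hb hc]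
    exact mul_mul_mul_comm _ _ _ _

/-- `O(1,0) ⊕ O(0,1)` -/
def EE : VectorSheaf (XX k) 2 where
  ι := Fin 2 × Fin 2
  U := UU k
  covers := UU_cover k
  g a b := dg (u1 k a b) (u2 k a b)
  cocycle a b c W ha hb hc := by
    rw [map_dg, map_dg, map_dg, dg_mul]
    exact congrArg₂ dg (u1_cocycle k a b c W ha hb hc) (u2_cocycle k a b c W ha hb hc)

/-! Ampleness of `O(1,1)` -/

theorem basicOpen_fr_le (l i : Fin 2) : (PL k).basicOpen (fr k l i) ≤ VV k i := by
  intro y hy
  have hy1 : y ∈ VV k l := (PL k).basicOpen_le _ hy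
  rw [← kap_range k l] at hy1
  obtain ⟨z, rfl⟩ := hy1
  have h1 : z ∈ (Spec (CommRingCat.of (Polynomial k))).basicOpen
      (pull (kap k l) (le_kap_pre k l) (fr k l i)) :=
    (mem_basicOpen_pull (kap k l) _ _ z).2 ⟨trivial, hy⟩
  rw [kap_fr] at h1
  have h2 : z ∈ kap k l ⁻¹ᵁ VV k i := by
    rw [kap_pre]
    have h3 := basicOpen_eq_of_affine (R := CommRingCat.of (Polynomial k)) (dehom k l (MvPolynomial.X i))
    change z ∈ (Spec (CommRingCat.of (Polynomial k))).basicOpen ((Scheme.ΓSpecIso (CommRingCat.of (Polynomial k))).inv.hom (dehom k l (MvPolynomial.X i))) at h1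
    exact h3.le h1
  exact h2

theorem isAffineOpen_UU (a : Fin 2 × Fin 2) : IsAffineOpen (UU k a) := by
  rw [← jj_range]
  exact isAffineOpen_opensRange (jj k a)

theorem t11_compat (c a b : Fin 2 × Fin 2) (W : (XX k).Opens) (ha : W ≤ UU k a) (hb : W ≤ UU k b) :
    res ha (f1 k a c.1 * f2 k a c.2) =
      ((resU (le_inf ha hb) ((u1 k a b * u2 k a b) ^ ((1 : ℕ) : ℤ)) : Γ(XX k, W)ˣ) : Γ(XX k, W)) *
        res hb (f1 k b c.1 * f2 k b c.2) := by
  rw [Nat.cast_one, zpow_one, map_mul (resU (le_inf ha hb)), Units.val_mul, u1_coe k a b W ha hb,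
    u2_coe k a b W ha hb, map_mul, map_mul, ← f1_rel k a b c.1 W ha hb, ← f2_rel k a b c.2 W ha hb]
  exact mul_mul_mul_comm _ _ _ _

def t11 (c : Fin 2 × Fin 2) : ((L11 k).zpow (1 : ℕ)).Section where
  s a := f1 k a c.1 * f2 k a c.2
  compat a b W ha hb := t11_compat k c a b W ha hb

theorem t11_nonvanishing (c : Fin 2 × Fin 2) : (t11 k c).nonvanishing = UU k c := by
  apply le_antisymm
  · refine iSup_le fun a => ?_
    intro x hx
    change x ∈ (XX k).basicOpen (f1 k a c.1 * f2 k a c.2) at hx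
    rw [Scheme.basicOpen_mul] at hx
    constructor
    · exact basicOpen_fr_le k _ _ ((mem_basicOpen_pull (p1 k) _ _ x).1 hx.1).2
    · exact basicOpen_fr_le k _ _ ((mem_basicOpen_pull (p2 k) _ _ x).1 hx.2).2
  · intro x hx
    refine Opens.mem_iSup.2 ⟨c, ?_⟩
    change x ∈ (XX k).basicOpen (f1 k c c.1 * f2 k c c.2)
    rw [f1_self, f2_self, one_mul, Scheme.basicOpen_of_isUnit _ isUnit_one]
    exact hx

theorem L11_ample : (L11 k).IsAmple := by
  constructor
  · have : CompactSpace (PL k) := QuasiCompact.compactSpace_of_compactSpace (strP k)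
    exact QuasiCompact.compactSpace_of_compactSpace (strX k)
  · intro x
    obtain ⟨c, hc⟩ := UU_cover k x
    refine ⟨1, one_pos, t11 k c, ?_, ?_⟩
    · rw [t11_nonvanishing]; exact hc
    · rw [t11_nonvanishing]; exact isAffineOpen_UU k c

theorem XX_projective : IsProjectiveVariety (strX k) :=
  ⟨inferInstance, inferInstance, L11 k, L11_ample k⟩

end

end Pool.Agent.Helper922.Secs
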