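import Pool.Agent.Helper922.Secs

set_option autoImplicit false

open AlgebraicGeometry CategoryTheory Limits TopologicalSpace

namespace Pool.Agent.Helper922.Semi

open Bundles P1 PP Glue Secs

noncomputable section

theorem pull_of_eq_id {Y : Scheme.{0}} {g : Y ⟶ Y} (hg : g = 𝟙 Y) {U W : Y.Opens}
    (h : W ≤ g ⁻¹ᵁ U) (h' : W ≤ U) (s : Γ(Y, U)) : pull g h s = res h' s := by
  subst hg
  unfold pull res
  congr 2

variable (k : Type) [Field k]

def F1 (q : Spec (CommRingCat.of k) ⟶ PL k) (hq : q ≫ strP k = 𝟙 _) : PL k ⟶ XX k :=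
  pullback.lift (strP k ≫ q) (𝟙 _) (by rw [Category.assoc, hq, Category.comp_id, Category.id_comp])

def F2 (q : Spec (CommRingCat.of k) ⟶ PL k) (hq : q ≫ strP k = 𝟙 _) : PL k ⟶ XX k :=
  pullback.lift (𝟙 _) (strP k ≫ q) (by rw [Category.assoc, hq, Category.comp_id, Category.id_comp])

theorem F1_p1 (q : Spec (CommRingCat.of k) ⟶ PL k) (hq : q ≫ strP k = 𝟙 _) :
    F1 k q hq ≫ p1 k = strP k ≫ q := pullback.lift_fst _ _ _
theorem F1_p2 (q : Spec (CommRingCat.of k) ⟶ PL k) (hq : q ≫ strP k = 𝟙 _) :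
    F1 k q hq ≫ p2 k = 𝟙 _ := pullback.lift_snd _ _ _
theorem F2_p1 (q : Spec (CommRingCat.of k) ⟶ PL k) (hq : q ≫ strP k = 𝟙 _) :
    F2 k q hq ≫ p1 k = 𝟙 _ := pullback.lift_fst _ _ _
theorem F2_p2 (q : Spec (CommRingCat.of k) ⟶ PL k) (hq : q ≫ strP k = 𝟙 _) :
    F2 k q hq ≫ p2 k = strP k ≫ q := pullback.lift_snd _ _ _

theorem str_q (q : Spec (CommRingCat.of k) ⟶ PL k) (i : Fin 2) (z : Spec (CommRingCat.of k))
    (hz : q z ∈ VV k i) (W : (PL k).Opens) : W ≤ (strP k ≫ q) ⁻¹ᵁ VV k i := by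
  intro y _
  change q (strP k y) ∈ VV k i
  have : strP k y = z := Subsingleton.elim (α := PrimeSpectrum k) _ _
  rw [this]
  exact hz

theorem exists_kpt [IsAlgClosed k] (V : (XX k).Opens) (x : XX k) (hx : x ∈ V) :
    ∃ (q1 q2 : Spec (CommRingCat.of k) ⟶ PL k) (h1 : q1 ≫ strP k = 𝟙 _) (h2 : q2 ≫ strP k = 𝟙 _)
      (z : Spec (CommRingCat.of k)),
      F1 k q1 h1 (q2 z) ∈ V ∧ F2 k q2 h2 (q1 z) ∈ V := by
  have hJ : JacobsonSpace (XX k) := LocallyOfFiniteType.jacobsonSpace (strX k)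
  obtain ⟨y, hyV, hy⟩ := nonempty_inter_closedPoints (Z := (V : Set (XX k))) ⟨x, hx⟩
    V.isOpen.isLocallyClosed
  let xp := pointOfClosedPoint (strX k) y hy
  have hxp : xp ≫ strX k = 𝟙 _ := pointOfClosedPoint_comp (strX k) y hy
  have hq1 : (xp ≫ p1 k) ≫ strP k = 𝟙 _ := by rw [Category.assoc]; exact hxp
  have hq2 : (xp ≫ p2 k) ≫ strP k = 𝟙 _ := by
    rw [Category.assoc, ← pullback.condition]; exact hxp
  let z : Spec (CommRingCat.of k) := Classical.arbitrary _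
  have hz : xp z = y := pointOfClosedPoint_apply (strX k) y hy z
  refine ⟨xp ≫ p1 k, xp ≫ p2 k, hq1, hq2, z, ?_, ?_⟩
  · have h : (xp ≫ p2 k) ≫ F1 k (xp ≫ p1 k) hq1 = xp := by
      apply pullback.hom_ext
      · rw [Category.assoc, F1_p1, ← Category.assoc, hq2, Category.id_comp]
      · rw [Category.assoc, F1_p2, Category.comp_id]
    rw [← Scheme.Hom.comp_apply, h, hz]
    exact hyV
  · have h : (xp ≫ p1 k) ≫ F2 k (xp ≫ p2 k) hq2 = xp := by
      apply pullback.hom_ext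
      · rw [Category.assoc, F2_p1, Category.comp_id]
      · rw [Category.assoc, F2_p2, ← Category.assoc, hq1, Category.id_comp]
    rw [← Scheme.Hom.comp_apply, h, hz]
    exact hyV

theorem pull_zero_of {X Y : Scheme.{0}} (f : Y ⟶ X) {U : X.Opens} {W : Y.Opens}
    (h : W ≤ f ⁻¹ᵁ U) (s : Γ(X, U)) (y : Y) (hW : y ∈ W) (hy : f y ∈ X.basicOpen s)
    (h0 : pull f h s = 0) : False := by
  have h1 := (mem_basicOpen_pull f h s y).2 ⟨hW, hy⟩
  rw [h0, Scheme.basicOpen_zero] at h1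
  exact h1

/-- `H^0(P^1 × P^1, O(n,-n)) = 0` -/
theorem sec_pos [IsAlgClosed k] (n : ℕ) (hn : 0 < n) (w : ∀ a, Γ(XX k, UU k a))
    (hc : ∀ a b (W : (XX k).Opens) (ha : W ≤ UU k a) (hb : W ≤ UU k b),
      res ha (w a) * res ha (f2 k a b.2) ^ n = res ha (f1 k a b.1) ^ n * res hb (w b)) :
    ∀ a, w a = 0 := by
  intro a
  by_contra hne
  have hb : ((XX k).basicOpen (w a) : Set (XX k)).Nonempty := by
    rw [Set.nonempty_iff_ne_empty]
    intro h
    exact hne ((basicOpen_eq_bot_iff (w a)).1 (Opens.ext h))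
  obtain ⟨x, hx⟩ := hb
  obtain ⟨q1, q2, h1, h2, z, hz, -⟩ := exists_kpt k _ x hx
  have hzU : F1 k q1 h1 (q2 z) ∈ UU k a := (XX k).basicOpen_le _ hz
  have hq1 : q1 (strP k (q2 z)) ∈ VV k a.1 := by
    have := hzU.1
    change p1 k (F1 k q1 h1 (q2 z)) ∈ VV k a.1 at this
    rw [← Scheme.Hom.comp_apply, F1_p1] at this
    exact this
  have hle : ∀ j, VV k j ≤ F1 k q1 h1 ⁻¹ᵁ UU k (a.1, j) := by
    intro j
    refine le_pre_inf _ ?_ ?_
    · change VV k j ≤ (F1 k q1 h1 ≫ p1 k) ⁻¹ᵁ VV k a.1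
      rw [F1_p1]
      exact str_q k q1 a.1 _ hq1 _
    · change VV k j ≤ (F1 k q1 h1 ≫ p2 k) ⁻¹ᵁ VV k j
      rw [F1_p2]
      exact le_refl _
  have key := neg_sections k n hn (fun j => pull (F1 k q1 h1) (hle j) (w (a.1, j))) ?_
  · have h0 := key a.2
    refine pull_zero_of (F1 k q1 h1) (hle a.2) (w a) (q2 z) ?_ hz h0
    have := hzU.2
    change p2 k (F1 k q1 h1 (q2 z)) ∈ VV k a.2 at this
    rw [← Scheme.Hom.comp_apply, F1_p2] at this
    exact this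
  · intro i j W hi hj
    have hW : W ≤ F1 k q1 h1 ⁻¹ᵁ (UU k (a.1, i) ⊓ UU k (a.1, j)) :=
      le_pre_inf _ (hi.trans (hle i)) (hj.trans (hle j))
    have h3 := congrArg (pull (F1 k q1 h1) hW) (hc (a.1, i) (a.1, j)
      (UU k (a.1, i) ⊓ UU k (a.1, j)) inf_le_left inf_le_right)
    have h4 : f1 k (a.1, i) ((a.1, j) : Fin 2 × Fin 2).1 = 1 := f1_self k (a.1, i)
    rw [h4, map_one, one_pow, one_mul, map_mul, map_pow, pull_res, pull_res, pull_res] at h3
    rw [res_pull, res_pull, ← h3]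
    congr 2
    unfold f2
    rw [pull_pull]
    exact (pull_of_eq_id (F1_p2 k q1 h1) _ _ _).symm

/-- `H^0(P^1 × P^1, O(-n,n)) = 0` -/
theorem sec_neg [IsAlgClosed k] (n : ℕ) (hn : 0 < n) (w : ∀ a, Γ(XX k, UU k a))
    (hc : ∀ a b (W : (XX k).Opens) (ha : W ≤ UU k a) (hb : W ≤ UU k b),
      res ha (w a) * res ha (f1 k a b.1) ^ n = res ha (f2 k a b.2) ^ n * res hb (w b)) :
    ∀ a, w a = 0 := by
  intro a
  by_contra hne
  have hb : ((XX k).basicOpen (w a) : Set (XX k)).Nonempty := by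
    rw [Set.nonempty_iff_ne_empty]
    intro h
    exact hne ((basicOpen_eq_bot_iff (w a)).1 (Opens.ext h))
  obtain ⟨x, hx⟩ := hb
  obtain ⟨q1, q2, h1, h2, z, -, hz⟩ := exists_kpt k _ x hx
  have hzU : F2 k q2 h2 (q1 z) ∈ UU k a := (XX k).basicOpen_le _ hz
  have hq1 : q2 (strP k (q1 z)) ∈ VV k a.2 := by
    have := hzU.2
    change p2 k (F2 k q2 h2 (q1 z)) ∈ VV k a.2 at this
    rw [← Scheme.Hom.comp_apply, F2_p2] at this
    exact this
  have hle : ∀ j, VV k j ≤ F2 k q2 h2 ⁻¹ᵁ UU k (j, a.2) := by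
    intro j
    refine le_pre_inf _ ?_ ?_
    · change VV k j ≤ (F2 k q2 h2 ≫ p1 k) ⁻¹ᵁ VV k j
      rw [F2_p1]
      exact le_refl _
    · change VV k j ≤ (F2 k q2 h2 ≫ p2 k) ⁻¹ᵁ VV k a.2
      rw [F2_p2]
      exact str_q k q2 a.2 _ hq1 _
  have key := neg_sections k n hn (fun j => pull (F2 k q2 h2) (hle j) (w (j, a.2))) ?_
  · have h0 := key a.1
    refine pull_zero_of (F2 k q2 h2) (hle a.1) (w a) (q1 z) ?_ hz h0
    have := hzU.1
    change p1 k (F2 k q2 h2 (q1 z)) ∈ VV k a.1 at this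
    rw [← Scheme.Hom.comp_apply, F2_p1] at this
    exact this
  · intro i j W hi hj
    have hW : W ≤ F2 k q2 h2 ⁻¹ᵁ (UU k (i, a.2) ⊓ UU k (j, a.2)) :=
      le_pre_inf _ (hi.trans (hle i)) (hj.trans (hle j))
    have h3 := congrArg (pull (F2 k q2 h2) hW) (hc (i, a.2) (j, a.2)
      (UU k (i, a.2) ⊓ UU k (j, a.2)) inf_le_left inf_le_right)
    have h4 : f2 k (i, a.2) ((j, a.2) : Fin 2 × Fin 2).2 = 1 := f2_self k (i, a.2)
    rw [h4, map_one, one_pow, one_mul, map_mul, map_pow, pull_res, pull_res, pull_res] at h3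
    rw [res_pull, res_pull, ← h3]
    congr 2
    unfold f1
    rw [pull_pull]
    exact (pull_of_eq_id (F2_p1 k q2 h2) _ _ _).symm

/-- global sections of `N^m`, `N = O(1,-1)`, vanish for `m ≠ 0` -/
theorem sec_int [IsAlgClosed k] (m : ℤ) (hm : m ≠ 0) (w : ∀ a, Γ(XX k, UU k a))
    (hc : ∀ a b (W : (XX k).Opens) (ha : W ≤ UU k a) (hb : W ≤ UU k b),
      res ha (w a) = (((resU (le_inf ha hb) (u1 k a b) * (resU (le_inf ha hb) (u2 k a b))⁻¹) ^ m :
        Γ(XX k, W)ˣ) : Γ(XX k, W)) * res hb (w b)) :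
    ∀ a, w a = 0 := by
  rcases lt_or_gt_of_ne hm with h | h
  · obtain ⟨n, hn⟩ := Int.eq_ofNat_of_zero_le (a := -m) (by omega)
    have hn' : 0 < n := by omega
    refine sec_neg k n hn' w ?_
    intro a b W ha hb
    have hm' : m = -(n : ℤ) := by omega
    rw [hc a b W ha hb, hm', zpow_neg, zpow_natCast, ← u1_coe k a b W ha hb, ← u2_coe k a b W ha hb]
    rw [← inv_pow, mul_inv, inv_inv, mul_pow, Units.val_mul, Units.val_pow_eq_pow_val,
      Units.val_pow_eq_pow_val]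
    have h5 : (((resU (le_inf ha hb) (u1 k a b))⁻¹ : Γ(XX k, W)ˣ) : Γ(XX k, W)) ^ n *
      ((resU (le_inf ha hb) (u1 k a b) : Γ(XX k, W)ˣ) : Γ(XX k, W)) ^ n = 1 := by
      rw [← mul_pow, Units.inv_mul, one_pow]
    linear_combination (((resU (le_inf ha hb) (u2 k a b) : Γ(XX k, W)ˣ) : Γ(XX k, W)) ^ n *
      res hb (w b)) * h5
  · obtain ⟨n, hn⟩ := Int.eq_ofNat_of_zero_le (a := m) (by omega)
    have hn' : 0 < n := by omega
    refine sec_pos k n hn' w ?_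
    intro a b W ha hb
    rw [hc a b W ha hb, hn, zpow_natCast, ← u1_coe k a b W ha hb, ← u2_coe k a b W ha hb]
    rw [mul_pow, Units.val_mul, Units.val_pow_eq_pow_val,
      Units.val_pow_eq_pow_val]
    have h5 : (((resU (le_inf ha hb) (u2 k a b))⁻¹ : Γ(XX k, W)ˣ) : Γ(XX k, W)) ^ n *
      ((resU (le_inf ha hb) (u2 k a b) : Γ(XX k, W)ˣ) : Γ(XX k, W)) ^ n = 1 := by
      rw [← mul_pow, Units.inv_mul, one_pow]
    linear_combination (((resU (le_inf ha hb) (u1 k a b) : Γ(XX k, W)ˣ) : Γ(XX k, W)) ^ n *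
      res hb (w b)) * h5

/-- a global function vanishing somewhere is zero -/
theorem sec_zero (w : ∀ a, Γ(XX k, UU k a))
    (hc : ∀ a b (W : (XX k).Opens) (ha : W ≤ UU k a) (hb : W ≤ UU k b),
      res ha (w a) = res hb (w b))
    (x : XX k) (a₀ : Fin 2 × Fin 2) (hx : x ∈ UU k a₀) (hv : x ∉ (XX k).basicOpen (w a₀)) :
    ∀ a, w a = 0 := by
  obtain ⟨t, ht⟩ := glue (UU k) (UU_cover k) w hc
  have ht0 : t = 0 := by
    by_contra hne
    have hu : IsUnit t := by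
      let _ := (isField_XX k).toField
      exact IsUnit.mk0 t hne
    have h2 := hu.map (res (le_top : UU k a₀ ≤ ⊤))
    rw [ht a₀] at h2
    apply hv
    rw [Scheme.basicOpen_of_isUnit _ h2]
    exact hx
  intro a
  rw [← ht a, ht0, map_zero]

end

end Pool.Agent.Helper922.Semi
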