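import Pool.Agent.Helper922.Rep

set_option autoImplicit false

open AlgebraicGeometry CategoryTheory Limits TopologicalSpace

namespace Pool.Agent.Helper922.SemiStable

open Bundles P1 PP Glue Secs Semi Pool.Agent.Helper922.Rep

noncomputable section

theorem rho_dg {k : Type} [Field k] {r' : ℕ} (ρ : AlgRep k 2 r') (hρ : ρ.FactorsThroughPGL)
    {A : Type} [CommRing A] (φ : k →+* A) (x y : Aˣ) :
    ρ.map A φ (dg x y) = ρ.map A φ (dg (x * y⁻¹) 1) := by
  have h : dg x y = dg (x * y⁻¹) 1 * dg y y := by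
    rw [dg_mul, one_mul, inv_mul_cancel_right]
  rw [h, map_mul, dg_scalar y, hρ, mul_one]

variable (k : Type) [Field k]

theorem res_rho {r' : ℕ} (ρ : AlgRep k 2 r') (hρ : ρ.FactorsThroughPGL)
    (a b : Fin 2 × Fin 2) (W : (XX k).Opens) (ha : W ≤ UU k a) (hb : W ≤ UU k b) (β γ : Fin r') :
    res (le_inf ha hb) ((ρ.map Γ(XX k, UU k a ⊓ UU k b) (baseHom (strX k) _)
      (dg (u1 k a b) (u2 k a b))) β γ) =
    (ρ.map Γ(XX k, W) (baseHom (strX k) W)
      (dg (resU (le_inf ha hb) (u1 k a b) * (resU (le_inf ha hb) (u2 k a b))⁻¹) 1)) β γ := by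
  rw [← rho_dg ρ hρ]
  have h1 := ρ.natural Γ(XX k, UU k a ⊓ UU k b) Γ(XX k, W) (baseHom (strX k) _)
    (res (le_inf ha hb)) (dg (u1 k a b) (u2 k a b))
  rw [res_baseHom, map_dg] at h1
  exact congrArg (fun M : Matrix.GeneralLinearGroup (Fin r') Γ(XX k, W) => M β γ) h1

def sv {r' : ℕ} (ρ : AlgRep k 2 r') (s : ((EE k).assoc (strX k) ρ).Section)
    (a : Fin 2 × Fin 2) (α : Fin r') : Γ(XX k, UU k a) := s.s a α

def tt {r' : ℕ} (ρ : AlgRep k 2 r') (s : ((EE k).assoc (strX k) ρ).Section) (m : ℤ)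
    (α : Fin r') (a : Fin 2 × Fin 2) : Γ(XX k, UU k a) :=
  ∑ β, baseHom (strX k) (UU k a) (PPm ρ m α β) * sv k ρ s a β

theorem res_tt {r' : ℕ} (ρ : AlgRep k 2 r') (hρ : ρ.FactorsThroughPGL)
    (s : ((EE k).assoc (strX k) ρ).Section) (m : ℤ) (α : Fin r') (a b : Fin 2 × Fin 2)
    (W : (XX k).Opens) (ha : W ≤ UU k a) (hb : W ≤ UU k b) :
    res ha (tt k ρ s m α a) =
      (((resU (le_inf ha hb) (u1 k a b) * (resU (le_inf ha hb) (u2 k a b))⁻¹) ^ m :
        Γ(XX k, W)ˣ) : Γ(XX k, W)) * res hb (tt k ρ s m α b) := by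
  have hb1 : ∀ (c : Fin 2 × Fin 2) (hc : W ≤ UU k c) (z : k),
      res hc (baseHom (strX k) (UU k c) z) = baseHom (strX k) W z := by
    intro c hc z
    rw [← res_baseHom (strX k) hc]
    rfl
  have hs : ∀ β, res ha (sv k ρ s a β) = ∑ γ, (ρ.map Γ(XX k, W) (baseHom (strX k) W)
      (dg (resU (le_inf ha hb) (u1 k a b) * (resU (le_inf ha hb) (u2 k a b))⁻¹) 1)) β γ *
        res hb (sv k ρ s b γ) := by
    intro β
    refine (s.compat a b W ha hb β).trans (Finset.sum_congr rfl fun γ _ => ?_)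
    rw [← res_rho k ρ hρ a b W ha hb]
    rfl
  unfold tt
  rw [map_sum, map_sum, Finset.mul_sum]
  simp only [map_mul, hb1, hs, Finset.mul_sum]
  rw [Finset.sum_comm]
  refine Finset.sum_congr rfl fun γ _ => ?_
  have hw := weight ρ (baseHom (strX k) W)
    (resU (le_inf ha hb) (u1 k a b) * (resU (le_inf ha hb) (u2 k a b))⁻¹) m α γ
  rw [← mul_assoc, ← hw, Finset.sum_mul]
  refine Finset.sum_congr rfl fun β _ => ?_
  rw [mul_assoc]

theorem sum_tt {r' : ℕ} (ρ : AlgRep k 2 r') (s : ((EE k).assoc (strX k) ρ).Section)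
    (α : Fin r') (a : Fin 2 × Fin 2) : ∑ m ∈ SS ρ, tt k ρ s m α a = sv k ρ s a α := by
  unfold tt
  rw [Finset.sum_comm]
  have h : ∀ β, ∑ m ∈ SS ρ, baseHom (strX k) (UU k a) (PPm ρ m α β) * sv k ρ s a β =
      (1 : Matrix (Fin r') (Fin r') Γ(XX k, UU k a)) α β * sv k ρ s a β := by
    intro β
    rw [← Finset.sum_mul, sum_weights]
  rw [Finset.sum_congr rfl fun β _ => h β]
  rw [Finset.sum_eq_single α]
  · rw [Matrix.one_apply_eq, one_mul]
  · intro β _ hne
    rw [Matrix.one_apply_ne hne.symm, zero_mul]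
  · intro h
    exact absurd (Finset.mem_univ _) h

theorem semistable [IsAlgClosed k] : IsSemistable (strX k) (EE k) := by
  intro r' ρ hρ s hx
  obtain ⟨x, hx⟩ := hx
  have h0 : ∀ (α : Fin r') (a : Fin 2 × Fin 2), sv k ρ s a α = tt k ρ s 0 α a := by
    intro α a
    rw [← sum_tt, Finset.sum_eq_single 0]
    · intro m _ hm
      exact sec_int k m hm (tt k ρ s m α) (fun a b W ha hb => res_tt k ρ hρ s m α a b W ha hb) a
    · intro h
      exact absurd (Finset.mem_insert_self _ _) h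
  intro i α
  obtain ⟨a₀, ha₀⟩ := UU_cover k x
  have hx' : x ∉ (XX k).basicOpen (sv k ρ s a₀ α) := hx a₀ ha₀ α
  rw [h0] at hx'
  have h1 := sec_zero k (tt k ρ s 0 α) (fun a b W ha hb => by
    rw [res_tt k ρ hρ s 0 α a b W ha hb, zpow_zero, Units.val_one, one_mul]) x a₀ ha₀ hx'
  exact (h0 α i).trans (h1 i)

end

end Pool.Agent.Helper922.SemiStable
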